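import Pool.Agent.T9h62.S6.MQ

/-! The ladder of an eigenfunction, with bounds in `L^(2(q+1))`. -/

set_option autoImplicit false
open MeasureTheory Filter Topology Complex
open scoped ContDiff ENNReal

namespace Pool.Agent.T9h62.S6

open Pool.Agent.W745.RW Pool.Agent.TH294.RS

noncomputable section

/-- approximate ladder systems with bounds in `L^(2(q+1))` -/
structure AQ (B : Set ℂ) (a : ℂ → ℝ) (h : ℕ → ℝ) (q : ℕ) (w : ℤ → ℕ → ℂ → ℂ) : Prop where
  hpos : ∀ n, 0 < h n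
  hlim : Tendsto h atTop (𝓝 0)
  sa : ContDiffOn ℝ ∞ a B
  pa : ∀ z ∈ B, 0 < a z
  bd : ∀ k, LB B (2 * (q + 1)) (w k)
  up : ∀ k, ∃ e, LB B (2 * (q + 1)) e ∧ ∀ n, ∀ z ∈ B,
    DP a (h n) (w k n) z = w (k + 1) n z + (h n : ℂ) * e n z
  dn : ∀ k, ∃ e, LB B (2 * (q + 1)) e ∧ ∀ n, ∀ z ∈ B,
    DM a (h n) (w k n) z = - w (k - 1) n z + (h n : ℂ) * e n z
  cj : ∀ k n, ∀ z ∈ B, (starRingEnd ℂ) (w k n z) = (-1) ^ k.natAbs * w (-k) n z

variable {B : Set ℂ} {h : ℕ → ℝ} {a : ℂ → ℝ} {q : ℕ}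

lemma MQ.sP (hB : IsOpen B) (hh : Tendsto h atTop (𝓝 0)) (ha : ContDiffOn ℝ ∞ a B) {k : ℕ}
    {f : ℕ → ℂ → ℂ} (H : MQ B h q (k + 1) f) : MQ B h q k (sP a h f) := by
  have h1 := H.2.1.smulc hB hh (cxa ha)
  have h2 := (H.2.2.smulc hB hh (cxa ha)).cmul hB hh I
  refine (h1.sub hB hh h2).congr hB fun n z _ => ?_
  simp only [TH294.RS.sP, DP, dd, dx, dy, hd]; ring

lemma MQ.sM (hB : IsOpen B) (hh : Tendsto h atTop (𝓝 0)) (ha : ContDiffOn ℝ ∞ a B) {k : ℕ}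
    {f : ℕ → ℂ → ℂ} (H : MQ B h q (k + 1) f) : MQ B h q k (sM a h f) := by
  have h1 := H.2.1.smulc hB hh (cxa ha)
  have h2 := (H.2.2.smulc hB hh (cxa ha)).cmul hB hh I
  refine (h1.add hB h2).congr hB fun n z _ => ?_
  simp only [TH294.RS.sM, DM, db, dx, dy, hd]; ring

/-- all semiclassical derivatives are bounded -/
def MD (B : Set ℂ) (h : ℕ → ℝ) (q : ℕ) (f : ℕ → ℂ → ℂ) : Prop := ∀ k, MQ B h q k f

lemma MD.sP (hB : IsOpen B) (hh : Tendsto h atTop (𝓝 0)) (ha : ContDiffOn ℝ ∞ a B)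
    {f : ℕ → ℂ → ℂ} (H : MD B h q f) : MD B h q (sP a h f) := fun k => (H (k + 1)).sP hB hh ha
lemma MD.sM (hB : IsOpen B) (hh : Tendsto h atTop (𝓝 0)) (ha : ContDiffOn ℝ ∞ a B)
    {f : ℕ → ℂ → ℂ} (H : MD B h q f) : MD B h q (sM a h f) := fun k => (H (k + 1)).sM hB hh ha
lemma MD.add (hB : IsOpen B) {f g : ℕ → ℂ → ℂ} (H : MD B h q f) (G : MD B h q g) :
    MD B h q (fun n z => f n z + g n z) := fun k => (H k).add hB (G k)
lemma MD.sub (hB : IsOpen B) (hh : Tendsto h atTop (𝓝 0)) {f g : ℕ → ℂ → ℂ} (H : MD B h q f)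
    (G : MD B h q g) : MD B h q (fun n z => f n z - g n z) := fun k => (H k).sub hB hh (G k)
lemma MD.smulc (hB : IsOpen B) (hh : Tendsto h atTop (𝓝 0)) {f : ℕ → ℂ → ℂ} (H : MD B h q f)
    {c : ℂ → ℂ} (hc : ContDiffOn ℝ ∞ c B) : MD B h q (fun n z => c z * f n z) :=
  fun k => (H k).smulc hB hh hc
lemma MD.cmul (hB : IsOpen B) (hh : Tendsto h atTop (𝓝 0)) {f : ℕ → ℂ → ℂ} (H : MD B h q f)
    (c : ℂ) : MD B h q (fun n z => c * f n z) := fun k => (H k).cmul hB hh c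
lemma MD.conj (hB : IsOpen B) {f : ℕ → ℂ → ℂ} (H : MD B h q f) :
    MD B h q (fun n z => (starRingEnd ℂ) (f n z)) := fun k => (H k).conj hB

lemma MD.wn (hB : IsOpen B) (hh : Tendsto h atTop (𝓝 0)) (ha : ContDiffOn ℝ ∞ a B)
    {u : ℕ → ℂ → ℂ} (H : MD B h q u) (k : ℕ) : MD B h q (TH294.RS.wn a h u k) := by
  induction k with
  | zero => exact H
  | succ k ih =>
    have : TH294.RS.wn a h u (k + 1) = TH294.RS.sP a h (TH294.RS.wn a h u k) := by
      funext n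
      exact wn_succ a h u k n
    rw [this]; exact ih.sP hB hh ha

lemma MD.sm {f : ℕ → ℂ → ℂ} (H : MD B h q f) (n : ℕ) : ContDiffOn ℝ ∞ (f n) B := (H 0).sm n

/-- the errors -/
lemma errsq (hB : IsOpen B) (hh : Tendsto h atTop (𝓝 0)) (ha : ContDiffOn ℝ ∞ a B)
    {u : ℕ → ℂ → ℂ} (H : MD B h q u)
    (he : ∀ n, ∀ z ∈ B, (h n : ℂ) ^ 2 * ((a z : ℂ) ^ 2 * lap (u n) z) = - u n z) (k : ℕ) :
    ∃ E, MD B h q E ∧ ∀ n, ∀ z ∈ B, DM a (h n) (wn a h u (k + 1) n) z =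
      - wn a h u k n z + (h n : ℂ) * E n z := by
  induction k with
  | zero =>
    refine ⟨fun n z => ab a z * TH294.RS.wn a h u 1 n z, (H.wn hB hh ha 1).smulc hB hh (ab_sm hB ha),
      fun n z hz => ?_⟩

    have e0 : TH294.RS.wn a h u 0 n = u n := rfl
    show _ = - TH294.RS.wn a h u 0 n z + (h n : ℂ) * (ab a z * TH294.RS.wn a h u 1 n z)
    rw [wn_succ, e0, MP hB ha (h n) (H.sm n) hz, he n z hz]
  | succ k ih =>
    obtain ⟨E, hE, hE'⟩ := ih
    refine ⟨fun n z => TH294.RS.sP a h E n z + (ab a z * TH294.RS.wn a h u (k + 2) n z -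
      ad a z * TH294.RS.sM a h (TH294.RS.wn a h u (k + 1)) n z), ?_, fun n z hz => ?_⟩
    · exact (hE.sP hB hh ha).add hB (((H.wn hB hh ha (k + 2)).smulc hB hh (ab_sm hB ha)).sub hB hh
        (((H.wn hB hh ha (k + 1)).sM hB hh ha).smulc hB hh (ad_sm hB ha)))
    · have s1 := (H.wn hB hh ha (k + 1)).sm n
      rw [wn_succ a h u (k + 1) n, MP hB ha (h n) s1 hz]
      have e1 := PM hB ha (h n) s1 hz
      have e2 : DP a (h n) (DM a (h n) (TH294.RS.wn a h u (k + 1) n)) z =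
          DP a (h n) (fun w => - TH294.RS.wn a h u k n w + (h n : ℂ) * E n w) z :=
        DP_cg hB (h n) (hE' n) hz
      rw [DP_add (h n) (fda hB ((H.wn hB hh ha k).sm n) hz) (fda hB (hE.sm n) hz)] at e2
      have e3 : TH294.RS.wn a h u (k + 2) n z = DP a (h n) (TH294.RS.wn a h u (k + 1) n) z := by
        rw [wn_succ a h u (k + 1) n]
      have e4 : TH294.RS.wn a h u (k + 1) n z = DP a (h n) (TH294.RS.wn a h u k n) z := by
        rw [wn_succ a h u k n]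
      simp only [TH294.RS.sP, TH294.RS.sM]
      rw [e3]
      rw [← e4] at e2
      linear_combination (-1 : ℂ) * e1 + e2

/-- **The ladder is an approximate ladder system.** -/
theorem mkAQ (hB : IsOpen B) (hp : ∀ n, 0 < h n) (hh : Tendsto h atTop (𝓝 0))
    (ha : ContDiffOn ℝ ∞ a B) (hpa : ∀ z ∈ B, 0 < a z)
    {u : ℕ → ℂ → ℂ} (hu : ∀ n z, (starRingEnd ℂ) (u n z) = u n z) (hb : LB B (2 * (q + 1)) u)
    (he : ∀ n, ∀ z ∈ B, (h n : ℂ) ^ 2 * ((a z : ℂ) ^ 2 * lap (u n) z) = - u n z) :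
    AQ B a h q (ww a h u) := by
  have ha2 : ContDiffOn ℝ ∞ (fun z => ((a z : ℂ) ^ 2)⁻¹) B := by
    refine ContDiffOn.inv ((cxa ha).pow 2) fun z hz => ?_
    have := (hpa z hz).ne'
    exact pow_ne_zero 2 (by exact_mod_cast this)
  have H : MD B h q u := fun k => MQ.sol hB hp hh hb ha2 (fun n z hz => by
    have h1 := he n z hz
    have h2 : (a z : ℂ) ^ 2 ≠ 0 := pow_ne_zero 2 (by exact_mod_cast (hpa z hz).ne')
    have h3 : hL h u n z = ((a z : ℂ) ^ 2)⁻¹ * ((h n : ℂ) ^ 2 * ((a z : ℂ) ^ 2 * lap (u n) z)) := by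
      have h4 : ((a z : ℂ) ^ 2)⁻¹ * (a z : ℂ) ^ 2 = 1 := inv_mul_cancel₀ h2
      simp only [hL]
      linear_combination (-((h n : ℂ) ^ 2 * lap (u n) z)) * h4
    rw [h3, h1]; ring) k
  have hzero : LB B (2 * (q + 1)) (fun (_ : ℕ) (_ : ℂ) => (0 : ℂ)) :=
    LB.const B (2 * (q + 1)) (c := fun _ => 0) contDiffOn_const
  have cjw : ∀ (k : ℕ) (c : ℂ), MD B h q (fun n z => c * (starRingEnd ℂ) (wn a h u k n z)) :=
    fun k c => ((H.wn hB hh ha k).conj hB).cmul hB hh c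
  have bd : ∀ k : ℤ, LB B (2 * (q + 1)) (ww a h u k) := by
    intro k
    rcases Int.eq_nat_or_neg k with ⟨m, rfl | rfl⟩
    · exact (H.wn hB hh ha m) 0
    · refine LB.congr ((cjw m ((-1) ^ m)) 0) fun n z _ => ww_neg hu m n z
  refine ⟨hp, hh, ha, hpa, bd, ?_, ?_, ?_⟩
  · -- raising
    intro k
    rcases Int.eq_nat_or_neg k with ⟨m, rfl | rfl⟩
    · refine ⟨_, hzero, fun n z hz => ?_⟩
      have e1 : ((m : ℤ) + 1) = ((m + 1 : ℕ) : ℤ) := by push_cast; rfl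
      rw [e1, ww_nat, ww_nat, wn_succ]
      simp
    · cases m with
      | zero =>
        refine ⟨_, hzero, fun n z hz => ?_⟩
        have e1 : (-((0 : ℕ) : ℤ) + 1) = ((1 : ℕ) : ℤ) := by simp
        have e2 : (-((0 : ℕ) : ℤ)) = ((0 : ℕ) : ℤ) := by simp
        rw [e1, e2, ww_nat, ww_nat, wn_succ]
        simp
      | succ m =>
        obtain ⟨E, hE, hE'⟩ := errsq hB hh ha H he m
        refine ⟨fun n z => (-1) ^ (m + 1) * (starRingEnd ℂ) (E n z),
          ((hE.conj hB).cmul hB hh _) 0, fun n z hz => ?_⟩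
        have e1 : (-((m + 1 : ℕ) : ℤ) + 1) = -(m : ℤ) := by push_cast; ring
        rw [e1, ww_neg hu]
        have e2 : ww a h u (-((m + 1 : ℕ) : ℤ)) n =
            fun z => (-1) ^ (m + 1) * (starRingEnd ℂ) (wn a h u (m + 1) n z) := by
          funext z; exact ww_neg hu (m + 1) n z
        have d := fda hB ((H.wn hB hh ha (m + 1)).sm n) hz
        rw [e2, DP_cm (h n) (conj_da d), DP_conj (h n) d, hE' n z hz, map_add, map_neg, map_mul,
          conj_ofReal]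
        ring
  · -- lowering
    intro k
    rcases Int.eq_nat_or_neg k with ⟨m, rfl | rfl⟩
    · cases m with
      | zero =>
        refine ⟨_, hzero, fun n z hz => ?_⟩
        have e1 : (((0 : ℕ) : ℤ) - 1) = -((1 : ℕ) : ℤ) := by simp
        rw [e1, ww_neg hu, ww_nat, wn_succ]
        have e2 : wn a h u 0 n = u n := rfl
        have d := fda hB (H.sm n) hz
        have e3 : u n = fun w => (starRingEnd ℂ) (u n w) := by
          funext w; exact (hu n w).symm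
        have e4 : DM a (h n) (u n) z = (starRingEnd ℂ) (DP a (h n) (u n) z) := by
          conv_lhs => rw [e3]
          exact DM_conj (h n) d
        rw [e2, e4]
        ring
      | succ m =>
        obtain ⟨E, hE, hE'⟩ := errsq hB hh ha H he m
        refine ⟨E, hE 0, fun n z hz => ?_⟩
        have e1 : (((m + 1 : ℕ) : ℤ) - 1) = ((m : ℕ) : ℤ) := by push_cast; ring
        rw [e1, ww_nat, ww_nat]
        exact hE' n z hz
    · refine ⟨_, hzero, fun n z hz => ?_⟩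
      have e1 : (-(m : ℤ) - 1) = -((m + 1 : ℕ) : ℤ) := by push_cast; ring
      rw [e1, ww_neg hu, wn_succ]
      have e2 : ww a h u (-(m : ℤ)) n =
          fun z => (-1) ^ m * (starRingEnd ℂ) (wn a h u m n z) := by
        funext z; exact ww_neg hu m n z
      have d := fda hB ((H.wn hB hh ha m).sm n) hz
      rw [e2, DM_cm (h n) (conj_da d), DM_conj (h n) d, pow_succ]
      ring
  · -- conjugation
    intro k n z hz
    have hs : ∀ m : ℕ, ((-1 : ℂ) ^ m) * (-1) ^ m = 1 := by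
      intro m; rw [← mul_pow]; simp
    rcases Int.eq_nat_or_neg k with ⟨m, rfl | rfl⟩
    · rw [ww_neg hu, ww_nat, Int.natAbs_natCast, ← mul_assoc, hs, one_mul]
    · rw [neg_neg, ww_nat, Int.natAbs_neg, Int.natAbs_natCast, ww_neg hu, map_mul,
        conj_conj, map_pow, map_neg, map_one]

end

end Pool.Agent.T9h62.S6
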