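import Pool.Agent.T9h62.S6.Sob

/-! The interior gradient estimate with an inhomogeneous term, for even exponents. -/

set_option autoImplicit false
open MeasureTheory Filter Topology Complex
open scoped ContDiff ENNReal

namespace Pool.Agent.T9h62.S6

open Pool.Agent.W745.RW Pool.Agent.W249.RW Pool.Agent.TH294.RS

noncomputable section

theorem lq_low (q : ℕ) {ζ v : ℂ → ℝ} (hc : Continuous (fun w => ζ w * v w))
    (hs : HasCompactSupport ζ) {S : Set ℂ} (hS : MeasurableSet S) (h1 : ∀ z ∈ S, ζ z = 1) :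
    ∫ z in S, v z ^ (2 * (q + 1)) ≤ ∫ z, (ζ z * v z) ^ (2 * (q + 1)) := by
  have e : ∀ z ∈ S, v z ^ (2 * (q + 1)) = (ζ z * v z) ^ (2 * (q + 1)) := by
    intro z hz
    rw [h1 z hz, one_mul]
  rw [setIntegral_congr_fun hS e]
  apply setIntegral_le_integral
  · apply (hc.pow (2 * (q + 1))).integrable_of_hasCompactSupport
    have h2 : HasCompactSupport (fun w => ζ w * v w) := hs.mul_right
    exact h2.comp_left (g := fun x : ℝ => x ^ (2 * (q + 1))) (by simp)
  · exact ae_of_all _ (fun z => by simp only [Pi.zero_apply]; rw [pow_mul]; positivity)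

/-- the estimate on discs of radius `h` -/
theorem sgiq (q : ℕ) : ∃ C : ℝ, 0 ≤ C ∧ ∀ (h : ℝ) (f : ℂ → ℝ) (c : ℂ), 0 < h →
    ContDiffOn ℝ ∞ f (Metric.ball c (4 * h)) →
    ∫ z in Metric.ball c h, (h ^ 2 * (dx f z ^ 2 + dy f z ^ 2)) ^ (q + 1) ≤
      C * ∫ z in Metric.ball c (3 * h), (f z ^ (2 * (q + 1)) + (h ^ 2 * lap f z) ^ (2 * (q + 1))) := by
  obtain ⟨C0, hC00, hC0⟩ := sob q
  have pe : ∀ x : ℝ, x ^ (2 * (q + 1)) = (x ^ 2) ^ (q + 1) := fun x => pow_mul x 2 (q + 1)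
  obtain ⟨M1, hM1, hM1'⟩ := cut_M b1
  obtain ⟨M2', hM20, hM20'⟩ := cut_M b2
  set M2 : ℝ := M2' + 1 with hM2d
  have hM2 : 1 ≤ M2 := by linarith
  have hM2' : ∀ h : ℝ, 0 < h → ∀ c z : ℂ,
    h ^ 2 * (dx (cut b2 c h) z ^ 2 + dy (cut b2 c h) z ^ 2) + cut b2 c h z ^ 2 ≤ M2 :=
    fun h hh c z => (hM20' h hh c z).trans (by linarith)
  set M3 : ℝ := 3 * M1 * M2 + 2 with hM3
  have hM30 : 0 ≤ M3 := by positivity
  set W : ℝ := 2 ^ q * (9 * Real.pi) ^ q with hWd
  have hW0 : 0 ≤ W := by positivity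
  refine ⟨2 ^ q * 2 * (C0 * (M2 * M3 ^ q) * W), by positivity, ?_⟩
  intro h f c hh hf
  set B := Metric.ball c (4 * h) with hBdef
  have hB : IsOpen B := Metric.isOpen_ball
  have hsub3 : Metric.closedBall c (3 * h) ⊆ B := Metric.closedBall_subset_ball (by linarith)
  have hsub1 : Metric.closedBall c (b1.rOut * h) ⊆ Metric.ball c (2 * h) := by
    apply Metric.closedBall_subset_ball
    have : b1.rOut = 3 / 2 := rfl
    rw [this]
    linarith
  have hsub2 : Metric.closedBall c (b2.rOut * h) ⊆ Metric.ball c (3 * h) := by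
    apply Metric.closedBall_subset_ball
    have : b2.rOut = 5 / 2 := rfl
    rw [this]
    linarith
  have hb3 : Metric.ball c (3 * h) ⊆ B := Metric.ball_subset_closedBall.trans hsub3
  have hb2 : Metric.ball c (2 * h) ⊆ Metric.ball c (3 * h) :=
    Metric.ball_subset_ball (by linarith)
  have hb1 : Metric.ball c h ⊆ Metric.ball c (3 * h) :=
    Metric.ball_subset_ball (by linarith)
  have tf1 : TF B (cut b1 c h) := cut_tf b1 c hh (hsub1.trans (hb2.trans hb3))
  have tf2 : TF B (cut b2 c h) := cut_tf b2 c hh (hsub2.trans hb3)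
  -- integrability on the balls
  have hint : ∀ f : ℂ → ℝ, ContinuousOn f B → IntegrableOn f (Metric.ball c (3 * h)) := by
    intro f hf
    exact ((hf.mono hsub3).integrableOn_compact (isCompact_closedBall c (3 * h))).mono_set
      Metric.ball_subset_closedBall
  have hcf : ContinuousOn f B := hf.continuousOn
  have hcg : ContinuousOn (fun z => h ^ 2 * lap f z) B :=
    continuousOn_const.mul (sm_lap hB hf).continuousOn
  set U := ∫ z in Metric.ball c (3 * h), f z ^ 2 with hU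
  set R := ∫ z in Metric.ball c (3 * h), (h ^ 2 * lap f z) ^ 2 with hR
  set Q1 := ∫ z in Metric.ball c (3 * h), f z ^ (2 * (q + 1)) with hQ1
  set Q2 := ∫ z in Metric.ball c (3 * h), (h ^ 2 * lap f z) ^ (2 * (q + 1)) with hQ2
  have hVb : volume.real (Metric.ball c (3 * h)) = 9 * Real.pi * h ^ 2 := by
    rw [vol_ball c (by positivity)]; ring
  have hUQ : U ^ (q + 1) ≤ (9 * Real.pi * h ^ 2) ^ q * Q1 := by
    have k := jensen (S := Metric.ball c (3 * h)) (measure_ball_lt_top).ne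
      (g := fun z => f z ^ 2) (fun z => sq_nonneg _) q (hint _ (hcf.pow 2))
      (by simp only [← pe]; exact hint _ (hcf.pow (2 * (q + 1))))
    simp only [← pe] at k
    rw [hVb] at k
    exact k
  have hRQ : R ^ (q + 1) ≤ (9 * Real.pi * h ^ 2) ^ q * Q2 := by
    have k := jensen (S := Metric.ball c (3 * h)) (measure_ball_lt_top).ne
      (g := fun z => (h ^ 2 * lap f z) ^ 2) (fun z => sq_nonneg _) q (hint _ (hcg.pow 2))
      (by simp only [← pe]; exact hint _ (hcg.pow (2 * (q + 1))))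
    simp only [← pe] at k
    rw [hVb] at k
    exact k
  have hU0 : 0 ≤ U := integral_nonneg (fun z => by positivity)
  have hR0 : 0 ≤ R := integral_nonneg (fun z => by positivity)
  have hQs : ∫ z in Metric.ball c (3 * h), (f z ^ (2 * (q + 1)) +
      (h ^ 2 * lap f z) ^ (2 * (q + 1))) = Q1 + Q2 :=
    integral_add (hint _ (hcf.pow (2 * (q + 1)))) (hint _ (hcg.pow (2 * (q + 1))))
  rw [hQs]
  set T := U + R with hT
  have hTQ : T ^ (q + 1) ≤ W * (h ^ 2) ^ q * (Q1 + Q2) := by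
    have k := add_pow_le hU0 hR0 (q + 1)
    rw [Nat.add_sub_cancel] at k
    calc T ^ (q + 1) ≤ 2 ^ q * (U ^ (q + 1) + R ^ (q + 1)) := k
      _ ≤ 2 ^ q * ((9 * Real.pi * h ^ 2) ^ q * Q1 + (9 * Real.pi * h ^ 2) ^ q * Q2) := by
        gcongr
      _ = W * (h ^ 2) ^ q * (Q1 + Q2) := by rw [hWd, mul_pow]; ring
  have hT0 : 0 ≤ T := add_nonneg hU0 hR0
  have hMT : M2 * U + R ≤ M2 * T := by
    rw [hT]; nlinarith
  -- the gradient of f on the ball of radius 2h
  have s1 : h ^ 2 * ∫ z, (dx (fun w => cut b2 c h w * f w) z ^ 2 +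
      dy (fun w => cut b2 c h w * f w) z ^ 2) ≤ M2 * U + R :=
    en1 hB hf tf2 ((cut_supp b2 c hh).trans hsub2) (fun z => hM2' h hh c z)
      (cut_sq b2 c h) (hint _ (hcf.pow 2)) (hint _ (hcg.pow 2))
  have s2 : ∫ z in Metric.ball c (2 * h), (dx f z ^ 2 + dy f z ^ 2) ≤
      ∫ z, (dx (fun w => cut b2 c h w * f w) z ^ 2 +
        dy (fun w => cut b2 c h w * f w) z ^ 2) :=
    grad_low hB tf2 hf Metric.isOpen_ball (fun z hz => cut_one b2 c hh hz)
  have s3 : h ^ 2 * ∫ z in Metric.ball c (2 * h), (dx f z ^ 2 + dy f z ^ 2) ≤ M2 * T :=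
    ((mul_le_mul_of_nonneg_left s2 (by positivity)).trans s1).trans hMT
  -- the main estimate for one derivative
  have main : ∀ e : ℂ, (∀ (g : ℂ → ℝ) (z : ℂ), fderiv ℝ g z e ^ 2 ≤ dx g z ^ 2 + dy g z ^ 2) →
      ∫ z in Metric.ball c h, ((h * dd e f z) ^ 2) ^ (q + 1) ≤
        C0 * (M2 * M3 ^ q) * W * (Q1 + Q2) := by
    intro e he
    obtain ⟨v, hv⟩ : ∃ v : ℂ → ℝ, v = fun z => h * fderiv ℝ f z e := ⟨_, rfl⟩
    have sv : ContDiffOn ℝ ∞ v B := by
      rw [hv]; exact contDiffOn_const.mul (cdd hB hf e)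
    have hcv := sv.continuousOn
    have i2 : IntegrableOn (fun z => v z ^ 2) (Metric.ball c (2 * h)) :=
      (hint _ (hcv.pow 2)).mono_set hb2
    have hgc : ContinuousOn (fun z => h ^ 2 * (dx f z ^ 2 + dy f z ^ 2)) B :=
      continuousOn_const.mul (((cdd hB hf 1).continuousOn.pow 2).add
        ((cdd hB hf I).continuousOn.pow 2))
    have t1 : ∫ z in Metric.ball c (2 * h), v z ^ 2 ≤ M2 * T := by
      have k1 : ∫ z in Metric.ball c (2 * h), v z ^ 2 ≤
          ∫ z in Metric.ball c (2 * h), h ^ 2 * (dx f z ^ 2 + dy f z ^ 2) := by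
        apply integral_mono_of_nonneg
        · exact ae_of_all _ (fun z => by positivity)
        · exact (hint _ hgc).mono_set hb2
        · refine ae_of_all _ (fun z => ?_)
          show v z ^ 2 ≤ h ^ 2 * (dx f z ^ 2 + dy f z ^ 2)
          rw [hv]
          show (h * fderiv ℝ f z e) ^ 2 ≤ _
          rw [mul_pow]
          exact mul_le_mul_of_nonneg_left (he f z) (sq_nonneg h)
      rw [integral_const_mul] at k1
      exact k1.trans s3
    have ig2 : IntegrableOn (fun z => (h ^ 2 * lap f z) ^ 2) (Metric.ball c (2 * h)) :=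
      (hint _ (hcg.pow 2)).mono_set hb2
    have t1g : ∫ z in Metric.ball c (2 * h), (h ^ 2 * lap f z) ^ 2 ≤ T := by
      have : ∫ z in Metric.ball c (2 * h), (h ^ 2 * lap f z) ^ 2 ≤ R :=
        setIntegral_mono_set (hint _ (hcg.pow 2)) (ae_of_all _ fun z => by
          show (0 : ℝ) ≤ (h ^ 2 * lap f z) ^ 2
          positivity) (LE.le.eventuallyLE hb2)
      linarith
    have t2 : h ^ 2 * ∫ z, (dx (fun w => cut b1 c h w * v w) z ^ 2 +
        dy (fun w => cut b1 c h w * v w) z ^ 2) ≤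
        3 * M1 * (∫ z in Metric.ball c (2 * h), v z ^ 2) +
        2 * ∫ z in Metric.ball c (2 * h), (h ^ 2 * lap f z) ^ 2 :=
      en2 hB hf tf1 e he measurableSet_ball ((cut_supp b1 c hh).trans hsub1)
        (fun z => hM1' h hh c z) (cut_sq b1 c h) hv i2 ig2
    have t3 : ∫ z, (cut b1 c h z * v z) ^ 2 ≤ ∫ z in Metric.ball c (2 * h), v z ^ 2 :=
      l2_up (cut_sq b1 c h) ((cut_supp b1 c hh).trans hsub1) i2
    have hcd : ContDiff ℝ ∞ (fun w => cut b1 c h w * v w) := prod_cd hB tf1 sv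
    have t4 := hC0 (fun w => cut b1 c h w * v w) (hcd.of_le (by
      exact (WithTop.coe_le_coe.mpr (le_top : (1 : ℕ∞) ≤ ⊤) :
        ((1 : ℕ∞) : WithTop ℕ∞) ≤ ((⊤ : ℕ∞) : WithTop ℕ∞)))) tf1.2.1.mul_right
    have t5 : ∫ z in Metric.ball c h, v z ^ (2 * (q + 1)) ≤
        ∫ z, (cut b1 c h z * v z) ^ (2 * (q + 1)) := by
      apply lq_low q hcd.continuous tf1.2.1 measurableSet_ball
      intro z hz
      apply cut_one b1 c hh
      have : b1.rIn = 1 := rfl
      rw [this, one_mul]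
      exact hz
    set G := ∫ z, (dx (fun w => cut b1 c h w * v w) z ^ 2 +
        dy (fun w => cut b1 c h w * v w) z ^ 2) with hG
    set N := ∫ z, (cut b1 c h z * v z) ^ 2 with hN
    set P := ∫ z in Metric.ball c (2 * h), v z ^ 2 with hP
    have hG0 : 0 ≤ G := integral_nonneg (fun z => by positivity)
    have hN0 : 0 ≤ N := integral_nonneg (fun z => by positivity)
    have hP0 : 0 ≤ P := integral_nonneg (fun z => by positivity)
    have t6 : ∫ z in Metric.ball c h, v z ^ (2 * (q + 1)) ≤ C0 * N * G ^ q := t5.trans t4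
    have hh2 : 0 < (h ^ 2) ^ q := by positivity
    have t7 : N ≤ M2 * T := t3.trans t1
    have t8 : h ^ 2 * G ≤ M3 * T := by
      have k1 := mul_le_mul_of_nonneg_left t1 (by positivity : (0 : ℝ) ≤ 3 * M1)
      rw [hM3]
      linarith
    have t9 : N * (h ^ 2 * G) ^ q ≤ (M2 * T) * (M3 * T) ^ q := by
      gcongr
    have t11 : N * G ^ q ≤ (M2 * M3 ^ q) * (W * (Q1 + Q2)) := by
      have k : (h ^ 2) ^ q * (N * G ^ q) ≤ (h ^ 2) ^ q * ((M2 * M3 ^ q) * (W * (Q1 + Q2))) := by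
        calc (h ^ 2) ^ q * (N * G ^ q) = N * (h ^ 2 * G) ^ q := by rw [mul_pow]; ring
          _ ≤ (M2 * T) * (M3 * T) ^ q := t9
          _ = (M2 * M3 ^ q) * T ^ (q + 1) := by rw [mul_pow, pow_succ]; ring
          _ ≤ (M2 * M3 ^ q) * (W * (h ^ 2) ^ q * (Q1 + Q2)) :=
            mul_le_mul_of_nonneg_left hTQ (by positivity)
          _ = (h ^ 2) ^ q * ((M2 * M3 ^ q) * (W * (Q1 + Q2))) := by ring
      exact le_of_mul_le_mul_left k hh2
    have t12 : ∫ z in Metric.ball c h, ((h * dd e f z) ^ 2) ^ (q + 1) =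
        ∫ z in Metric.ball c h, v z ^ (2 * (q + 1)) := by
      simp only [pe]
      rw [hv]; rfl
    rw [t12]
    calc ∫ z in Metric.ball c h, v z ^ (2 * (q + 1)) ≤ C0 * N * G ^ q := t6
      _ = C0 * (N * G ^ q) := by ring
      _ ≤ C0 * ((M2 * M3 ^ q) * (W * (Q1 + Q2))) :=
        mul_le_mul_of_nonneg_left t11 hC00
      _ = C0 * (M2 * M3 ^ q) * W * (Q1 + Q2) := by ring
  have m1 := main 1 (by
    intro g z
    change dx g z ^ 2 ≤ _
    nlinarith [sq_nonneg (dy g z)])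
  have m2 := main I (by
    intro g z
    change dy g z ^ 2 ≤ _
    nlinarith [sq_nonneg (dx g z)])
  have c1 : ContinuousOn (fun z => ((h * dd 1 f z) ^ 2) ^ (q + 1)) B :=
    ((continuousOn_const.mul (cdd hB hf 1).continuousOn).pow 2).pow (q + 1)
  have c2 : ContinuousOn (fun z => ((h * dd I f z) ^ 2) ^ (q + 1)) B :=
    ((continuousOn_const.mul (cdd hB hf I).continuousOn).pow 2).pow (q + 1)
  have i1 : IntegrableOn (fun z => ((h * dd 1 f z) ^ 2) ^ (q + 1)) (Metric.ball c h) :=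
    (hint _ c1).mono_set hb1
  have i2 : IntegrableOn (fun z => ((h * dd I f z) ^ 2) ^ (q + 1)) (Metric.ball c h) :=
    (hint _ c2).mono_set hb1
  have fin : ∫ z in Metric.ball c h, (h ^ 2 * (dx f z ^ 2 + dy f z ^ 2)) ^ (q + 1) ≤
      ∫ z in Metric.ball c h, (2 ^ q * ((h * dd 1 f z) ^ 2) ^ (q + 1) +
        2 ^ q * ((h * dd I f z) ^ 2) ^ (q + 1)) := by
    apply integral_mono_of_nonneg
    · exact ae_of_all _ (fun z => by positivity)
    · exact (i1.const_mul _).add (i2.const_mul _)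
    · refine ae_of_all _ (fun z => ?_)
      change (h ^ 2 * (dx f z ^ 2 + dy f z ^ 2)) ^ (q + 1) ≤
        2 ^ q * ((h * dx f z) ^ 2) ^ (q + 1) + 2 ^ q * ((h * dy f z) ^ 2) ^ (q + 1)
      have e : h ^ 2 * (dx f z ^ 2 + dy f z ^ 2) = (h * dx f z) ^ 2 + (h * dy f z) ^ 2 := by ring
      have k := add_pow_le (sq_nonneg (h * dx f z)) (sq_nonneg (h * dy f z)) (q + 1)
      rw [Nat.add_sub_cancel] at k
      rw [e]
      linarith
  rw [integral_add (i1.const_mul _) (i2.const_mul _), integral_const_mul,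
    integral_const_mul] at fin
  refine fin.trans ?_
  calc 2 ^ q * (∫ z in Metric.ball c h, ((h * dd 1 f z) ^ 2) ^ (q + 1)) +
      2 ^ q * (∫ z in Metric.ball c h, ((h * dd I f z) ^ 2) ^ (q + 1)) ≤
      2 ^ q * (C0 * (M2 * M3 ^ q) * W * (Q1 + Q2)) + 2 ^ q * (C0 * (M2 * M3 ^ q) * W * (Q1 + Q2)) := by
        gcongr
    _ = 2 ^ q * 2 * (C0 * (M2 * M3 ^ q) * W) * (Q1 + Q2) := by ring

/-- the estimate on compact sets -/
theorem ellq (q : ℕ) : ∃ C : ℝ, 0 ≤ C ∧ ∀ (U K K' : Set ℂ), IsOpen U → IsCompact K → IsCompact K' →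
    K' ⊆ U → ∀ (h : ℝ) (f : ℂ → ℝ), 0 < h → ContDiffOn ℝ ∞ f U →
    Metric.cthickening (5 * h) K ⊆ K' →
    ∫ z in K, (h ^ 2 * (dx f z ^ 2 + dy f z ^ 2)) ^ (q + 1) ≤
      C * ∫ z in K', (f z ^ (2 * (q + 1)) + (h ^ 2 * lap f z) ^ (2 * (q + 1))) := by
  obtain ⟨C, hC0, hC⟩ := sgiq q
  refine ⟨9 * C, by positivity, ?_⟩
  intro U K K' hU hK hK' hKU h f hpos hf hth
  have hdx : ContinuousOn (dx f) U := (cdd hU hf 1).continuousOn
  have hdy : ContinuousOn (dy f) U := (cdd hU hf I).continuousOn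
  have hGc : ContinuousOn (fun z => (h ^ 2 * (dx f z ^ 2 + dy f z ^ 2)) ^ (q + 1)) U :=
    (continuousOn_const.mul ((hdx.pow 2).add (hdy.pow 2))).pow (q + 1)
  have hHc : ContinuousOn (fun z => f z ^ (2 * (q + 1)) + (h ^ 2 * lap f z) ^ (2 * (q + 1))) U :=
    (hf.continuousOn.pow (2 * (q + 1))).add
      ((continuousOn_const.mul (sm_lap hU hf).continuousOn).pow (2 * (q + 1)))
  exact cover hK hK' hKU hpos hth hC0 hGc hHc (fun z => by positivity)
    (fun z => by simp only [pow_mul]; positivity)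
    (fun z hz => hC h f z hpos (hf.mono hz))

end

end Pool.Agent.T9h62.S6
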