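import Pool.Agent.T9h62.S6.Cert
import Pool.Agent.TH294.RS.Fin

/-! The lower bound for the sixth moment in terms of the fourth moment. -/

set_option autoImplicit false
open MeasureTheory Filter Topology Complex
open scoped ContDiff ENNReal

namespace Pool.Agent.T9h62.S6

open Pool.Agent.W745.RW Pool.Agent.TH294.RS

noncomputable section

variable {B : Set ℂ} {a : ℂ → ℝ} {h : ℕ → ℝ} {w : ℤ → ℕ → ℂ → ℂ}

theorem A4v : A4 cQ4 = -1622830857144229131209588009897184800 := by
  norm_num [cQ4, A4, eps]

theorem B4v : B4 cQ4 + B2 cQ2 = 2311376707523378277329918727958885200 := by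
  norm_num [cQ4, B4, GG, CC, eps, cQ2, B2]

theorem six_wn (H4 : AS B a h w) (H6 : AQ B a h 2 w) (hB : IsOpen B) :
    WN B (fun n z => sos (fun k => w k n z) cS -
      (232443405771852959114045945709662724 * w 0 n z ^ 6 +
      (-1622830857144229131209588009897184800 * w 0 n z ^ 4 +
        2311376707523378277329918727958885200))) := by
  have h1 := H6.rl hB cR cR_len
  have h2 := AS.e4 H4 hB cQ4 cQ4_sum
  have h3 := AS.e2 H4 hB cQ2
  refine ((h1.add h2).add h3).congr fun n z _ => ?_
  rw [cert, ← A4v, ← B4v]
  ring

/-- **The sixth moment bound in terms of the fourth moment.** -/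
theorem six_low (H4 : AS B a h w) (H6 : AQ B a h 2 w) (hB : IsOpen B) {φ : ℂ → ℝ} (hφ : TF B φ)
    (hφ0 : ∀ z, 0 ≤ φ z) {ε : ℝ} (hε : 0 < ε) :
    ∀ᶠ n in atTop, 1622830857144229131209588009897184800 * (∫ z, φ z * (w 0 n z).re ^ 4) -
      2311376707523378277329918727958885200 * (∫ z, φ z) - ε ≤
      232443405771852959114045945709662724 * ∫ z, φ z * (w 0 n z).re ^ 6 := by
  have h1 := (six_wn H4 H6 hB).nul φ hφ
  have h2 := (Complex.continuous_re.tendsto _).comp h1
  rw [Complex.zero_re] at h2
  have h3 := h2.eventually (gt_mem_nhds hε)
  filter_upwards [h3] with n hn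
  have c0 : ContinuousOn (fun z => (w 0 n z).re) B :=
    Complex.continuous_re.comp_continuousOn ((H4.bd 0).co n)
  have i4 : Integrable (fun z => φ z * (w 0 n z).re ^ 4) :=
    Pool.Agent.W311.RW.int_mul hB hφ (c0.pow 4)
  have i6 : Integrable (fun z => φ z * (w 0 n z).re ^ 6) :=
    Pool.Agent.W311.RW.int_mul hB hφ (c0.pow 6)
  have i0 : Integrable φ := hφ.1.continuous.integrable_of_hasCompactSupport hφ.2.1
  have ic := TF.cint hφ ((six_wn H4 H6 hB).co n)
  have e1 : (∫ z, (φ z : ℂ) * (sos (fun k => w k n z) cS -
      (232443405771852959114045945709662724 * w 0 n z ^ 6 +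
      (-1622830857144229131209588009897184800 * w 0 n z ^ 4 +
        2311376707523378277329918727958885200)))).re = ∫ z, ((φ z : ℂ) * (sos (fun k => w k n z) cS -
      (232443405771852959114045945709662724 * w 0 n z ^ 6 +
      (-1622830857144229131209588009897184800 * w 0 n z ^ 4 +
        2311376707523378277329918727958885200)))).re := (integral_re ic).symm
  have e2 : ∫ z, -((232443405771852959114045945709662724 * (φ z * (w 0 n z).re ^ 6) -
      1622830857144229131209588009897184800 * (φ z * (w 0 n z).re ^ 4)) +
      2311376707523378277329918727958885200 * φ z) ≤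
      ∫ z, ((φ z : ℂ) * (sos (fun k => w k n z) cS -
      (232443405771852959114045945709662724 * w 0 n z ^ 6 +
      (-1622830857144229131209588009897184800 * w 0 n z ^ 4 +
        2311376707523378277329918727958885200)))).re := by
    refine integral_mono (((i6.const_mul _).sub (i4.const_mul _)).add (i0.const_mul _)).neg
      ic.re fun z => ?_
    show -((232443405771852959114045945709662724 * (φ z * (w 0 n z).re ^ 6) -
      1622830857144229131209588009897184800 * (φ z * (w 0 n z).re ^ 4)) +
      2311376707523378277329918727958885200 * φ z) ≤ _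
    by_cases hz : z ∈ B
    · have a1 := H4.w0 n z hz
      have a2 := sos_re (x := fun k => w k n z) (fun k => H4.cj k n z hz) cS
      have a3 : ((φ z : ℂ) * (sos (fun k => w k n z) cS -
          (232443405771852959114045945709662724 * w 0 n z ^ 6 +
          (-1622830857144229131209588009897184800 * w 0 n z ^ 4 +
            2311376707523378277329918727958885200)))) =
          (φ z : ℂ) * sos (fun k => w k n z) cS -
          (((φ z * (232443405771852959114045945709662724 * (w 0 n z).re ^ 6 +
          (-1622830857144229131209588009897184800 * (w 0 n z).re ^ 4 +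
            2311376707523378277329918727958885200)) : ℝ)) : ℂ) := by
        rw [← a1]
        push_cast
        simp only [ofReal_re]
        ring
      rw [a3, sub_re, re_ofReal_mul, ofReal_re]
      have := mul_nonneg (hφ0 z) a2
      linarith
    · rw [TF.zero hφ hz]; simp
  have e3 : ∫ z, -((232443405771852959114045945709662724 * (φ z * (w 0 n z).re ^ 6) -
      1622830857144229131209588009897184800 * (φ z * (w 0 n z).re ^ 4)) +
      2311376707523378277329918727958885200 * φ z) =
      -((232443405771852959114045945709662724 * (∫ z, φ z * (w 0 n z).re ^ 6) -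
      1622830857144229131209588009897184800 * ∫ z, φ z * (w 0 n z).re ^ 4) +
      2311376707523378277329918727958885200 * ∫ z, φ z) := by
    have j1 : Integrable (fun z => 232443405771852959114045945709662724 *
      (φ z * (w 0 n z).re ^ 6)) := i6.const_mul _
    have j2 : Integrable (fun z => 1622830857144229131209588009897184800 *
      (φ z * (w 0 n z).re ^ 4)) := i4.const_mul _
    have j3 : Integrable (fun z => 232443405771852959114045945709662724 *
      (φ z * (w 0 n z).re ^ 6) - 1622830857144229131209588009897184800 *
      (φ z * (w 0 n z).re ^ 4)) := j1.sub j2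
    rw [integral_neg, integral_add j3 (i0.const_mul _), integral_sub j1 j2, integral_const_mul,
      integral_const_mul, integral_const_mul]
  simp only [Function.comp_apply] at hn
  rw [e1] at hn
  rw [e3] at e2
  linarith

end

end Pool.Agent.T9h62.S6
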