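import Pool.Agent.T9h62.S6.Ell
import Pool.Agent.TH294.RS.Sys

/-! Sequences all of whose semiclassical derivatives are locally bounded in `L^(2(q+1))`. -/

set_option autoImplicit false
open MeasureTheory Filter Topology Complex
open scoped ContDiff ENNReal

namespace Pool.Agent.T9h62.S6

open Pool.Agent.W745.RW Pool.Agent.TH294.RS

noncomputable section

/-- semiclassical derivatives of order at most `k` are locally bounded in `L^(2(q+1))` -/
def MQ (B : Set ℂ) (h : ℕ → ℝ) (q : ℕ) : ℕ → (ℕ → ℂ → ℂ) → Prop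
  | 0, f => LB B (2 * (q + 1)) f
  | (k + 1), f => LB B (2 * (q + 1)) f ∧ MQ B h q k (hd h 1 f) ∧ MQ B h q k (hd h I f)

variable {B : Set ℂ} {h : ℕ → ℝ} {q : ℕ}

lemma MQ.lb {k : ℕ} {f : ℕ → ℂ → ℂ} (H : MQ B h q k f) : LB B (2 * (q + 1)) f := by
  cases k with
  | zero => exact H
  | succ k => exact H.1

lemma MQ.congr (hB : IsOpen B) {k : ℕ} : ∀ {f g : ℕ → ℂ → ℂ}, MQ B h q k f →
    (∀ n, ∀ z ∈ B, g n z = f n z) → MQ B h q k g := by
  induction k with
  | zero => intro f g H e; exact LB.congr H e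
  | succ k ih =>
    intro f g H e
    exact ⟨H.1.congr e, ih H.2.1 (hd_congr hB e 1), ih H.2.2 (hd_congr hB e I)⟩

lemma MQ.down {k : ℕ} : ∀ {f : ℕ → ℂ → ℂ}, MQ B h q (k + 1) f → MQ B h q k f := by
  induction k with
  | zero => intro f H; exact H.1
  | succ k ih => intro f H; exact ⟨H.1, ih H.2.1, ih H.2.2⟩

lemma MQ.add (hB : IsOpen B) {k : ℕ} : ∀ {f g : ℕ → ℂ → ℂ}, MQ B h q k f → MQ B h q k g →
    MQ B h q k (fun n z => f n z + g n z) := by
  induction k with
  | zero => intro f g H G; exact LB.add H G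
  | succ k ih =>
    intro f g H G
    have e : ∀ v, ∀ n, ∀ z ∈ B, hd h v (fun n z => f n z + g n z) n z =
        hd h v f n z + hd h v g n z := by
      intro v n z hz
      simp only [hd]
      rw [fderiv_fun_add (fda hB (H.1.sm n) hz) (fda hB (G.1.sm n) hz)]
      simp only [add_apply]; ring
    exact ⟨H.1.add G.1, (ih H.2.1 G.2.1).congr hB (e 1), (ih H.2.2 G.2.2).congr hB (e I)⟩

/-- multiplication by `h` -/
lemma MQ.hmul (hB : IsOpen B) (hh : Tendsto h atTop (𝓝 0)) {k : ℕ} : ∀ {f : ℕ → ℂ → ℂ},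
    MQ B h q k f → MQ B h q k (fun n z => (h n : ℂ) * f n z) := by
  induction k with
  | zero => intro f H; exact LB.hmul H hh
  | succ k ih =>
    intro f H
    have e : ∀ v, ∀ n, ∀ z ∈ B, hd h v (fun n z => (h n : ℂ) * f n z) n z =
        (h n : ℂ) * hd h v f n z := by
      intro v n z hz
      simp only [hd]
      rw [fderiv_const_mul (fda hB (H.1.sm n) hz)]
      simp only [smul_apply, smul_eq_mul]
    exact ⟨H.1.hmul hh, (ih H.2.1).congr hB (e 1), (ih H.2.2).congr hB (e I)⟩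

/-- multiplication by a fixed smooth function -/
lemma MQ.smulc (hB : IsOpen B) (hh : Tendsto h atTop (𝓝 0)) {k : ℕ} : ∀ {f : ℕ → ℂ → ℂ}
    {c : ℂ → ℂ}, MQ B h q k f → ContDiffOn ℝ ∞ c B → MQ B h q k (fun n z => c z * f n z) := by
  induction k with
  | zero => intro f c H hc; exact LB.smulc H hc
  | succ k ih =>
    intro f c H hc
    have e : ∀ v, ∀ n, ∀ z ∈ B, hd h v (fun n z => c z * f n z) n z =
        c z * hd h v f n z + fderiv ℝ c z v * ((h n : ℂ) * f n z) := by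
      intro v n z hz
      simp only [hd]
      rw [fderiv_fun_mul (fda hB hc hz) (fda hB (H.1.sm n) hz)]
      simp only [add_apply, smul_apply, smul_eq_mul]; ring
    have hc' : ∀ v, ContDiffOn ℝ ∞ (fun z => fderiv ℝ c z v) B := fun v =>
      Pool.Agent.W98.RW.cd_fderiv hB hc v
    have hf : MQ B h q k (fun n z => (h n : ℂ) * f n z) := (MQ.down H).hmul hB hh
    exact ⟨H.1.smulc hc, ((ih H.2.1 hc).add hB (ih hf (hc' 1))).congr hB (e 1),
      ((ih H.2.2 hc).add hB (ih hf (hc' I))).congr hB (e I)⟩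

lemma MQ.cmul (hB : IsOpen B) (hh : Tendsto h atTop (𝓝 0)) {k : ℕ} {f : ℕ → ℂ → ℂ}
    (H : MQ B h q k f) (c : ℂ) : MQ B h q k (fun n z => c * f n z) :=
  H.smulc hB hh (c := fun _ => c) contDiffOn_const

lemma MQ.neg (hB : IsOpen B) (hh : Tendsto h atTop (𝓝 0)) {k : ℕ} {f : ℕ → ℂ → ℂ}
    (H : MQ B h q k f) : MQ B h q k (fun n z => - f n z) :=
  (H.cmul hB hh (-1)).congr hB fun n z _ => by ring

lemma MQ.sub (hB : IsOpen B) (hh : Tendsto h atTop (𝓝 0)) {k : ℕ} {f g : ℕ → ℂ → ℂ}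
    (H : MQ B h q k f) (G : MQ B h q k g) : MQ B h q k (fun n z => f n z - g n z) :=
  (H.add hB (G.neg hB hh)).congr hB fun n z _ => by ring

lemma MQ.conj (hB : IsOpen B) {k : ℕ} : ∀ {f : ℕ → ℂ → ℂ},
    MQ B h q k f → MQ B h q k (fun n z => (starRingEnd ℂ) (f n z)) := by
  induction k with
  | zero => intro f H; exact LB.conj H
  | succ k ih =>
    intro f H
    have e : ∀ v, ∀ n, ∀ z ∈ B, hd h v (fun n z => (starRingEnd ℂ) (f n z)) n z =
        (starRingEnd ℂ) (hd h v f n z) := by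
      intro v n z hz
      simp only [hd]
      rw [fd_conj (fda hB (H.1.sm n) hz), map_mul, conj_ofReal]
    exact ⟨H.1.conj, (ih H.2.1).congr hB (e 1), (ih H.2.2).congr hB (e I)⟩

/-- the elliptic estimate for complex sequences -/
lemma gradq (hB : IsOpen B) (hp : ∀ n, 0 < h n) (hh : Tendsto h atTop (𝓝 0)) {f : ℕ → ℂ → ℂ}
    (hf : LB B (2 * (q + 1)) f) (hg : LB B (2 * (q + 1)) (hL h f)) {v : ℂ}
    (hv : ∀ (g : ℂ → ℝ) (z : ℂ), fderiv ℝ g z v ^ 2 ≤ dx g z ^ 2 + dy g z ^ 2) :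
    LB B (2 * (q + 1)) (hd h v f) := by
  obtain ⟨C, hC0, hC⟩ := ellq q
  have pe : ∀ x : ℝ, x ^ (2 * (q + 1)) = (x ^ 2) ^ (q + 1) := fun x => pow_mul x 2 (q + 1)
  have hsm : ∀ n, ContDiffOn ℝ ∞ (hd h v f n) B := fun n =>
    contDiffOn_const.mul (cfd hB (hf.sm n) v)
  refine ⟨hsm, fun K hK hKB => ?_⟩
  obtain ⟨δ, hδ, hδB⟩ := hK.exists_cthickening_subset_open hB hKB
  set K' := Metric.cthickening δ K with hK'
  have hK'c : IsCompact K' := hK.cthickening
  obtain ⟨C1, hC1⟩ := hf.bd K' hK'c hδB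
  obtain ⟨C2, hC2⟩ := hg.bd K' hK'c hδB
  refine ⟨2 ^ q * (C * (C1 + C2) + C * (C1 + C2)), ?_⟩
  have hsmall : ∀ᶠ n in atTop, 5 * h n ≤ δ := by
    have : Tendsto (fun n => 5 * h n) atTop (𝓝 (5 * 0)) := hh.const_mul 5
    rw [mul_zero] at this
    exact (this.eventually (eventually_le_nhds hδ))
  filter_upwards [hC1, hC2, hsmall] with n h1 h2 h3
  have hth : Metric.cthickening (5 * h n) K ⊆ K' := Metric.cthickening_mono h3 K
  have s := hf.sm n
  have key : ∀ L : ℂ →L[ℝ] ℝ, (∀ w, |L w| ≤ ‖w‖) →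
      ∫ z in K, (h n ^ 2 * (dx (fun w => L (f n w)) z ^ 2 + dy (fun w => L (f n w)) z ^ 2)) ^ (q + 1) ≤
        C * (C1 + C2) := by
    intro L hL'
    have sL : ContDiffOn ℝ ∞ (fun w => L (f n w)) B := L.contDiff.comp_contDiffOn s
    refine (hC B K K' hB hK hK'c hδB (h n) _ (hp n) sL hth).trans ?_
    have c1 : ContinuousOn (fun z => (L (f n z)) ^ (2 * (q + 1)) +
        (h n ^ 2 * lap (fun w => L (f n w)) z) ^ (2 * (q + 1))) K' :=
      ((sL.continuousOn.pow (2 * (q + 1))).add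
        ((continuousOn_const.mul (sm_lap hB sL).continuousOn).pow (2 * (q + 1)))).mono hδB
    have := intK_lin hK'c zero_le_one c1 ((hf.copow n _).mono hδB) ((hg.copow n _).mono hδB)
      (fun z hz => by
        have hzB := hδB hz
        have e1 : lap (fun w => L (f n w)) z = L (lap (f n) z) :=
          Pool.Agent.W98.RW.L_lap L hB s hzB
        have e2 : h n ^ 2 * L (lap (f n) z) = L (hL h f n z) := by
          have : hL h f n z = (h n ^ 2) • lap (f n) z := by
            rw [Complex.real_smul]; simp only [hL]; push_cast; rfl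
          rw [this, map_smul, smul_eq_mul]
        rw [e1, e2, one_mul]
        have p : ∀ w : ℂ, (L w) ^ (2 * (q + 1)) ≤ ‖w‖ ^ (2 * (q + 1)) := by
          intro w
          calc (L w) ^ (2 * (q + 1)) = |L w| ^ (2 * (q + 1)) := by
                rw [Even.pow_abs (even_two_mul _)]
            _ ≤ ‖w‖ ^ (2 * (q + 1)) := pow_le_pow_left₀ (abs_nonneg _) (hL' w) _
        exact add_le_add (p _) (p _)) h1 h2
    rw [one_mul] at this
    exact mul_le_mul_of_nonneg_left this hC0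
  have k1 := key reCLM (fun w => by simpa using abs_re_le_norm w)
  have k2 := key imCLM (fun w => by simpa using abs_im_le_norm w)
  have cF : ∀ L : ℂ →L[ℝ] ℝ, ContinuousOn (fun z => (h n ^ 2 * (dx (fun w => L (f n w)) z ^ 2 +
      dy (fun w => L (f n w)) z ^ 2)) ^ (q + 1)) K := by
    intro L
    have sL : ContDiffOn ℝ ∞ (fun w => L (f n w)) B := L.contDiff.comp_contDiffOn s
    have c1 : ContinuousOn (dx (fun w => L (f n w))) K :=
      (Pool.Agent.W98.RW.cd_fderiv hB sL 1).continuousOn.mono hKB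
    have c2 : ContinuousOn (dy (fun w => L (f n w))) K :=
      (Pool.Agent.W98.RW.cd_fderiv hB sL I).continuousOn.mono hKB
    exact (continuousOn_const.mul ((c1.pow 2).add (c2.pow 2))).pow (q + 1)
  have c3 : ContinuousOn (fun z => ‖hd h v f n z‖ ^ (2 * (q + 1))) K :=
    ((hsm n).continuousOn.norm.pow _).mono hKB
  have fin := intK_lin hK (by positivity : (0 : ℝ) ≤ 2 ^ q) c3 (cF reCLM) (cF imCLM)
    (fun z hz => by
      have hzB := hKB hz
      have d := fda hB s hzB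
      have e1 : fderiv ℝ (fun w => reCLM (f n w)) z v = (fderiv ℝ (f n) z v).re :=
        Pool.Agent.W98.RW.L_fderiv reCLM d v
      have e2 : fderiv ℝ (fun w => imCLM (f n w)) z v = (fderiv ℝ (f n) z v).im :=
        Pool.Agent.W98.RW.L_fderiv imCLM d v
      have b1 := hv (fun w => reCLM (f n w)) z
      have b2 := hv (fun w => imCLM (f n w)) z
      rw [e1] at b1
      rw [e2] at b2
      set p := dx (fun w => reCLM (f n w)) z ^ 2 + dy (fun w => reCLM (f n w)) z ^ 2
      set r := dx (fun w => imCLM (f n w)) z ^ 2 + dy (fun w => imCLM (f n w)) z ^ 2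
      have e3 : ‖hd h v f n z‖ ^ 2 = h n ^ 2 * ((fderiv ℝ (f n) z v).re ^ 2 +
          (fderiv ℝ (f n) z v).im ^ 2) := by
        simp only [hd]
        rw [norm_mul, mul_pow, Complex.sq_norm (fderiv ℝ (f n) z v), normSq_apply,
          Complex.norm_real, Real.norm_eq_abs, sq_abs]
        ring
      have e4 : ‖hd h v f n z‖ ^ 2 ≤ h n ^ 2 * p + h n ^ 2 * r := by
        rw [e3, ← mul_add]
        exact mul_le_mul_of_nonneg_left (add_le_add b1 b2) (sq_nonneg _)
      rw [pe]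
      refine (pow_le_pow_left₀ (by positivity) e4 (q + 1)).trans ?_
      have k := add_pow_le (show 0 ≤ h n ^ 2 * p by positivity)
        (show 0 ≤ h n ^ 2 * r by positivity) (q + 1)
      rwa [Nat.add_sub_cancel] at k) k1 k2
  exact fin

/-- elliptic regularity in the class -/
lemma MQ.ell (hB : IsOpen B) (hp : ∀ n, 0 < h n) (hh : Tendsto h atTop (𝓝 0)) {k : ℕ} :
    ∀ {f : ℕ → ℂ → ℂ}, MQ B h q k f → MQ B h q k (hL h f) → MQ B h q (k + 1) f := by
  induction k with
  | zero =>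
    intro f H G
    exact ⟨H, gradq hB hp hh H G dir1, gradq hB hp hh H G dirI⟩
  | succ k ih =>
    intro f H G
    refine ⟨H.1, ih H.2.1 (G.2.1.congr hB (hL_hd hB H.1.sm 1)),
      ih H.2.2 (G.2.2.congr hB (hL_hd hB H.1.sm I))⟩

/-- all derivatives of solutions are bounded -/
theorem MQ.sol (hB : IsOpen B) (hp : ∀ n, 0 < h n) (hh : Tendsto h atTop (𝓝 0))
    {f : ℕ → ℂ → ℂ} (hf : LB B (2 * (q + 1)) f) {ρ : ℂ → ℂ} (hρ : ContDiffOn ℝ ∞ ρ B)
    (he : ∀ n, ∀ z ∈ B, hL h f n z = - (ρ z * f n z)) (k : ℕ) : MQ B h q k f := by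
  induction k with
  | zero => exact hf
  | succ k ih =>
    exact ih.ell hB hp hh (((ih.smulc hB hh hρ).neg hB hh).congr hB he)

end

end Pool.Agent.T9h62.S6
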