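import Pool.Agent.T9h62.S6.Low

/-! The lower bounds without any a priori bound. -/

set_option autoImplicit false
open MeasureTheory Filter Topology Complex
open scoped ContDiff ENNReal

namespace Pool.Agent.T9h62.S6

open Pool.Agent.W745.RW Pool.Agent.TH294.RS

noncomputable section

/-- the approximate ladder system of a quantum ergodic sequence with bounded sixth moments -/
theorem raw_aq {B : Set ℂ} (hB : IsOpen B) {a : ℂ → ℝ} {h : ℕ → ℝ} {u : ℕ → ℂ → ℝ}
    (H : Raw B a h u) (hb : ∀ K : Set ℂ, IsCompact K → K ⊆ B →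
      ∃ C : ℝ, ∀ᶠ n in atTop, ∫ z in K, u n z ^ 6 ≤ C) :
    AQ B a h 2 (ww a h (fun n z => (u n z : ℂ))) := by
  have sm : ∀ n, ContDiffOn ℝ ∞ (fun z => (u n z : ℂ)) B := fun n => cxa (H.sm n)
  refine mkAQ hB H.hpos H.hlim H.sa H.pa (fun n z => conj_ofReal _) ⟨sm, fun K hK hKB => ?_⟩
    (fun n z hz => ?_)
  · obtain ⟨C, hC⟩ := hb K hK hKB
    refine ⟨C, hC.mono fun n hn => ?_⟩
    refine le_trans (le_of_eq ?_) hn
    refine setIntegral_congr_fun hK.measurableSet fun z _ => ?_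
    simp only [Complex.norm_real, Real.norm_eq_abs]
    rw [Even.pow_abs (by decide)]
  · rw [lap_re hB (H.sm n) hz]
    have h1 := H.eq n z hz
    have h2 : ((h n ^ 2 * (a z ^ 2 * lap (u n) z) + u n z : ℝ) : ℂ) = 0 := by rw [h1]; simp
    push_cast at h2
    linear_combination h2

lemma pow6 (x : ℝ) (m : ℕ) : x ^ 6 ≤ 1 + x ^ (2 * (m + 3)) := by
  have e1 : x ^ 6 = (x ^ 2) ^ 3 := by ring
  have e2 : x ^ (2 * (m + 3)) = (x ^ 2) ^ (m + 3) := pow_mul x 2 (m + 3)
  rw [e1, e2]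
  have h0 : 0 ≤ x ^ 2 := sq_nonneg x
  rcases le_total (x ^ 2) 1 with h1 | h1
  · have := pow_le_one₀ (n := 3) h0 h1
    have : 0 ≤ (x ^ 2) ^ (m + 3) := by positivity
    linarith
  · have := pow_le_pow_right₀ h1 (show 3 ≤ m + 3 by omega)
    linarith

lemma pow4 (x : ℝ) : x ^ 4 ≤ 1 + x ^ 6 := by
  nlinarith [sq_nonneg (x ^ 2 - 1), sq_nonneg (x ^ 2), sq_nonneg x,
    mul_nonneg (sq_nonneg x) (sq_nonneg (x ^ 2 - 1))]

/-- the tangent inequality -/
lemma tang (t : ℝ) (ht : 0 ≤ t) (m : ℕ) :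
    (m + 1) * (11 / 3) ^ m * t ^ 3 - m * (11 / 3) ^ (m + 1) * t ^ 2 ≤ t ^ (m + 3) := by
  have h1 := one_add_mul_le_pow (show (-2 : ℝ) ≤ t / (11 / 3) - 1 by
    have : 0 ≤ t / (11 / 3) := by positivity
    linarith) (m + 1)
  have h2 : (1 + (t / (11 / 3) - 1)) = t / (11 / 3) := by ring
  rw [h2, div_pow, le_div_iff₀ (by positivity)] at h1
  have h3 := mul_le_mul_of_nonneg_left h1 (sq_nonneg t)
  calc (m + 1) * (11 / 3) ^ m * t ^ 3 - m * (11 / 3) ^ (m + 1) * t ^ 2 =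
      t ^ 2 * ((1 + ((m + 1 : ℕ) : ℝ) * (t / (11 / 3) - 1)) * (11 / 3) ^ (m + 1)) := by
        push_cast
        rw [pow_succ]
        ring
    _ ≤ t ^ 2 * t ^ (m + 1) := h3
    _ = t ^ (m + 3) := by ring

/-- the lower bound under bounded sixth moments -/
theorem low_m {B : Set ℂ} (hB : IsOpen B) {a : ℂ → ℝ} {h : ℕ → ℝ} {u : ℕ → ℂ → ℝ}
    (H : Raw B a h u) (hb : ∀ K : Set ℂ, IsCompact K → K ⊆ B →
      ∃ C : ℝ, ∀ᶠ n in atTop, ∫ z in K, u n z ^ 6 ≤ C) {φ : ℂ → ℝ} (hφ : TF B φ)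
    (hφ0 : ∀ z, 0 ≤ φ z) (m : ℕ) {ε : ℝ} (hε : 0 < ε) :
    ∀ᶠ n in atTop, 11 * (11 / 3) ^ m * (∫ z, φ z) - ε ≤ ∫ z, φ z * u n z ^ (2 * (m + 3)) := by
  have hb4 : ∀ K : Set ℂ, IsCompact K → K ⊆ B →
      ∃ C : ℝ, ∀ᶠ n in atTop, ∫ z in K, u n z ^ 4 ≤ C := by
    intro K hK hKB
    obtain ⟨C, hC⟩ := hb K hK hKB
    refine ⟨1 * ((∫ z in K, (1 : ℝ)) + C), hC.mono fun n hn => ?_⟩
    have c1 : ContinuousOn (fun z => u n z ^ 4) K := ((H.sm n).continuousOn.pow 4).mono hKB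
    have c2 : ContinuousOn (fun z => u n z ^ 6) K := ((H.sm n).continuousOn.pow 6).mono hKB
    exact intK_lin hK zero_le_one c1 continuousOn_const c2
      (fun z _ => by rw [one_mul]; exact pow4 _) le_rfl hn
  have H4 := H.as hB hb4
  have H6 := raw_aq hB H hb
  set J := ∫ z, φ z with hJ
  have hJ0 : 0 ≤ J := integral_nonneg hφ0
  obtain ⟨t, ht⟩ : ∃ t : ℝ, t = (11 / 3) ^ m := ⟨_, rfl⟩
  have ht0 : 0 < t := by rw [ht]; positivity
  set D : ℝ := 232443405771852959114045945709662724 with hD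
  set P : ℝ := (m + 1) * t with hP
  set Q : ℝ := P * (1622830857144229131209588009897184800 / D) - m * (t * (11 / 3)) with hQ
  have hm : (0 : ℝ) ≤ m := by positivity
  have hP0 : 0 < P := by positivity
  have hQ0 : 0 ≤ Q := by
    have k1 : (11 / 3 : ℝ) ≤ 1622830857144229131209588009897184800 / D := by
      rw [hD]; norm_num
    have k2 : P * (11 / 3) ≤ P * (1622830857144229131209588009897184800 / D) :=
      mul_le_mul_of_nonneg_left k1 hP0.le
    have k3 : m * (t * (11 / 3)) ≤ P * (11 / 3) := by rw [hP]; nlinarith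
    rw [hQ]; linarith
  have e1 := six_low H4 H6 hB hφ hφ0 (show 0 < D * (ε / (2 * P)) by rw [hD]; positivity)
  have e2 := H.low hB hb4 hφ hφ0 (show 0 < ε / (2 * (Q + 1)) by positivity)
  have er : ∀ n z, (ww a h (fun n z => (u n z : ℂ)) 0 n z).re = u n z := by
    intro n z
    have : ww a h (fun n z => (u n z : ℂ)) 0 n z = (u n z : ℂ) := rfl
    rw [this, ofReal_re]
  simp only [er] at e1
  filter_upwards [e1, e2] with n h1 h2
  rw [← hJ] at h1 h2
  have i4 : Integrable (fun z => φ z * u n z ^ 4) :=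
    Pool.Agent.W311.RW.int_mul hB hφ ((H.sm n).continuousOn.pow 4)
  have i6 : Integrable (fun z => φ z * u n z ^ 6) :=
    Pool.Agent.W311.RW.int_mul hB hφ ((H.sm n).continuousOn.pow 6)
  have im : Integrable (fun z => φ z * u n z ^ (2 * (m + 3))) :=
    Pool.Agent.W311.RW.int_mul hB hφ ((H.sm n).continuousOn.pow (2 * (m + 3)))
  set S4 := ∫ z, φ z * u n z ^ 4 with hS4
  set S6 := ∫ z, φ z * u n z ^ 6 with hS6
  have h3 : P * S6 - m * (t * (11 / 3)) * S4 ≤ ∫ z, φ z * u n z ^ (2 * (m + 3)) := by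
    have h30 : ∫ z, (P * (φ z * u n z ^ 6) - m * (t * (11 / 3)) * (φ z * u n z ^ 4)) ≤
        ∫ z, φ z * u n z ^ (2 * (m + 3)) := by
      refine integral_mono ((i6.const_mul P).sub (i4.const_mul _)) im fun z => ?_
      have hb := tang (u n z ^ 2) (sq_nonneg _) m
      have h4 := mul_le_mul_of_nonneg_left hb (hφ0 z)
      have e5 : u n z ^ (2 * (m + 3)) = (u n z ^ 2) ^ (m + 3) := pow_mul _ _ _
      show P * (φ z * u n z ^ 6) - m * (t * (11 / 3)) * (φ z * u n z ^ 4) ≤ _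
      show _ ≤ φ z * u n z ^ (2 * (m + 3))
      rw [e5]
      refine le_trans (le_of_eq ?_) h4
      rw [hP, ht]; ring
    rw [integral_sub (i6.const_mul P) (i4.const_mul _), integral_const_mul,
      integral_const_mul] at h30
    exact h30
  -- combine
  have hD0 : 0 < D := by rw [hD]; norm_num
  have h5 : 1622830857144229131209588009897184800 / D * S4 -
      2311376707523378277329918727958885200 / D * J - ε / (2 * P) ≤ S6 := by
    have k : D * (1622830857144229131209588009897184800 / D * S4 -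
      2311376707523378277329918727958885200 / D * J - ε / (2 * P)) ≤ D * S6 := by
      refine le_trans (le_of_eq ?_) h1
      have : D ≠ 0 := hD0.ne'
      field_simp
    exact le_of_mul_le_mul_left k hD0
  have h6 := mul_le_mul_of_nonneg_left h5 hP0.le
  have h7 := mul_le_mul_of_nonneg_left h2 hQ0
  have h8 : P * (ε / (2 * P)) = ε / 2 := by field_simp
  have h9 : Q * (ε / (2 * (Q + 1))) ≤ ε / 2 := by
    rw [mul_div_assoc', div_le_div_iff₀ (by positivity) (by positivity)]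
    nlinarith
  have h10 : 11 ≤ 3 * (1622830857144229131209588009897184800 / D) -
      2311376707523378277329918727958885200 / D := by
    rw [hD]; norm_num
  have h11 : 11 * t * J ≤ Q * (3 * J) - P * (2311376707523378277329918727958885200 / D * J) := by
    have k1 := mul_le_mul_of_nonneg_left h10 (mul_nonneg hP0.le hJ0)
    have k2 : Q * (3 * J) - P * (2311376707523378277329918727958885200 / D * J) =
        P * J * (3 * (1622830857144229131209588009897184800 / D) -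
          2311376707523378277329918727958885200 / D) - 11 * m * t * J := by
      rw [hQ]; ring
    have k3 : P * J * 11 - 11 * m * t * J = 11 * t * J := by rw [hP]; ring
    linarith
  rw [← ht]
  have h12 : P * (1622830857144229131209588009897184800 / D * S4 -
      2311376707523378277329918727958885200 / D * J - ε / (2 * P)) - m * (t * (11 / 3)) * S4 =
      Q * S4 - P * (2311376707523378277329918727958885200 / D * J) - P * (ε / (2 * P)) := by
    rw [hQ]; ring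
  have h13 : Q * (3 * J - ε / (2 * (Q + 1))) = Q * (3 * J) - Q * (ε / (2 * (Q + 1))) := by ring
  linarith

/-- **The lower bound for all test functions.** -/
theorem main_m {Ω : Set ℂ} (hΩ : IsOpen Ω) {a : ℂ → ℝ} {h : ℕ → ℝ} {u : ℕ → ℂ → ℝ}
    (H : Raw Ω a h u) {ψ : ℂ → ℝ} (hψ : TF Ω ψ) (hψ0 : ∀ z, 0 ≤ ψ z) (m : ℕ) {ε : ℝ}
    (hε : 0 < ε) :
    ∀ᶠ n in atTop, 11 * (11 / 3) ^ m * (∫ z, ψ z) - ε ≤ ∫ z, ψ z * u n z ^ (2 * (m + 3)) := by
  by_contra hcon
  rw [not_eventually] at hcon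
  obtain ⟨σ, hσ, hσ'⟩ := extraction_of_frequently_atTop hcon
  set c : ℝ := 11 * (11 / 3) ^ m with hc
  have hc0 : 0 < c := by positivity
  set M : ℝ := c * (∫ z, ψ z) - ε with hM
  have hev : ∀ x : ℝ, 0 ≤ x ^ (2 * (m + 3)) := fun x => by rw [pow_mul]; positivity
  have hσM : ∀ n, ∫ z, ψ z * u (σ n) z ^ (2 * (m + 3)) < M := fun n => not_le.1 (hσ' n)
  set B : Set ℂ := {z | 0 < ψ z} with hBdef
  have hB : IsOpen B := isOpen_lt continuous_const hψ.1.continuous
  have hBΩ : B ⊆ Ω := by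
    intro z hz
    apply hψ.2.2
    apply subset_tsupport
    exact (ne_of_gt hz : ψ z ≠ 0)
  have HB := H.sub hBΩ hσ
  have hint : ∀ n, Integrable (fun z => ψ z * u (σ n) z ^ (2 * (m + 3))) := fun n =>
    Pool.Agent.W311.RW.int_mul hΩ hψ ((H.sm (σ n)).continuousOn.pow _)
  have hnn : ∀ n z, 0 ≤ ψ z * u (σ n) z ^ (2 * (m + 3)) := fun n z => mul_nonneg (hψ0 z) (hev _)
  have hb : ∀ K : Set ℂ, IsCompact K → K ⊆ B →
      ∃ C : ℝ, ∀ᶠ n in atTop, ∫ z in K, u (σ n) z ^ 6 ≤ C := by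
    intro K hK hKB
    obtain ⟨c, hc, hc'⟩ : ∃ c : ℝ, 0 < c ∧ ∀ z ∈ K, c ≤ ψ z := by
      by_cases hne : K.Nonempty
      · obtain ⟨z0, hz0, hmin⟩ := hK.exists_isMinOn hne hψ.1.continuous.continuousOn
        exact ⟨ψ z0, hKB hz0, fun z hz => hmin hz⟩
      · exact ⟨1, one_pos, fun z hz => absurd ⟨z, hz⟩ hne⟩
    refine ⟨1 * ((∫ z in K, (1 : ℝ)) + c⁻¹ * M), Eventually.of_forall fun n => ?_⟩
    have c0 : ContinuousOn (fun z => u (σ n) z ^ 6) K :=
      ((H.sm (σ n)).continuousOn.pow 6).mono (hKB.trans hBΩ)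
    have c1 : ContinuousOn (fun z => u (σ n) z ^ (2 * (m + 3))) K :=
      ((H.sm (σ n)).continuousOn.pow _).mono (hKB.trans hBΩ)
    have c2 : ContinuousOn (fun z => ψ z * u (σ n) z ^ (2 * (m + 3))) K :=
      hψ.1.continuous.continuousOn.mul c1
    refine intK_lin hK zero_le_one c0 continuousOn_const c1
      (fun z _ => by rw [one_mul]; exact pow6 _ m) le_rfl ?_
    refine (intK_c hK (by positivity : (0:ℝ) ≤ c⁻¹) c1 c2 (fun z hz => ?_)
      ((setIntegral_le_integral (hint n) (ae_of_all _ (hnn n))).trans (hσM n).le))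
    have h1 := hc' z hz
    have h2 := hev (u (σ n) z)
    rw [inv_mul_eq_div, le_div_iff₀ hc]
    nlinarith
  -- the truncation
  set V : ℝ := volume.real (tsupport ψ) with hV
  have hV0 : 0 ≤ V := measureReal_nonneg
  set δ : ℝ := ε / (4 * c * (V + 1)) with hδdef
  have hδ : 0 < δ := by positivity
  obtain ⟨φ, hφ, hφ0, hφψ, hdiff⟩ := trunc hψ hψ0 hδ
  have Iψ : Integrable ψ := hψ.1.continuous.integrable_of_hasCompactSupport hψ.2.1
  have Iφ : Integrable φ := hφ.1.continuous.integrable_of_hasCompactSupport hφ.2.1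
  have Ii : Integrable ((tsupport ψ).indicator (fun _ : ℂ => 2 * δ)) :=
    (integrable_indicator_iff hψ.2.1.measurableSet).2
      (integrableOn_const hψ.2.1.measure_lt_top.ne)
  have h1 : (∫ z, ψ z) - ∫ z, φ z ≤ 2 * δ * V := by
    rw [← integral_sub Iψ Iφ]
    refine (integral_mono (Iψ.sub Iφ) Ii hdiff).trans (le_of_eq ?_)
    rw [integral_indicator hψ.2.1.measurableSet, setIntegral_const, smul_eq_mul, mul_comm]
  have h2 : c * (2 * δ * V) ≤ ε / 2 := by
    have h3 : δ * (4 * c * (V + 1)) = ε := by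
      rw [hδdef]; field_simp
    have h4 : 0 ≤ δ * c := by positivity
    nlinarith
  have h4 := low_m hB HB hb hφ hφ0 m (show 0 < ε / 4 by positivity)
  obtain ⟨n, hn⟩ := h4.exists
  have h5 : ∫ z, φ z * u (σ n) z ^ (2 * (m + 3)) ≤ ∫ z, ψ z * u (σ n) z ^ (2 * (m + 3)) := by
    refine integral_mono_of_nonneg (ae_of_all _ fun z => mul_nonneg (hφ0 z) (hev _))
      (hint n) (ae_of_all _ fun z => ?_)
    exact mul_le_mul_of_nonneg_right (hφψ z) (hev _)
  have h6 := hσM n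
  rw [hM] at h6
  have h7 := mul_le_mul_of_nonneg_left h1 hc0.le
  rw [← hc] at hn
  linarith

/-- **Final form**: even moments with continuous weights on open sets. -/
theorem fin_m {Ω : Set ℂ} (hΩ : IsOpen Ω) {a : ℂ → ℝ} {h : ℕ → ℝ} {u : ℕ → ℂ → ℝ}
    (H : Raw Ω a h u) (m : ℕ) {U : Set ℂ} (hU : IsOpen U) (hUΩ : U ⊆ Ω) {w : ℂ → ℝ}
    (hw : ContinuousOn w U) (hw0 : ∀ z ∈ U, 0 ≤ w z) :
    ENNReal.ofReal (11 * (11 / 3) ^ m) * ∫⁻ z in U, ENNReal.ofReal (w z) ≤
      liminf (fun n => ∫⁻ z in U, ENNReal.ofReal (w z * u n z ^ (2 * (m + 3)))) atTop := by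
  have hnn : ∀ n z, 0 ≤ u n z ^ (2 * (m + 3)) := fun n z => by
    rw [pow_mul]; positivity
  refine weight_of_open hU (fun n => ((H.sm n).continuousOn.mono hUΩ).pow _)
    (fun V hV hVU => ?_) hw hw0
  refine open_of_test hV (by positivity)
    (fun n => ((H.sm n).continuousOn.mono (hVU.trans hUΩ)).pow _) hnn fun ψ hψ hψ0 ε hε => ?_
  exact main_m hΩ H ⟨hψ.1, hψ.2.1, hψ.2.2.trans (hVU.trans hUΩ)⟩ hψ0 m hε

end

end Pool.Agent.T9h62.S6
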