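import Pool.Agent.T9h62.S6.AQ

/-! Products of ladder functions and the translation relations between them. -/

set_option autoImplicit false
open MeasureTheory Filter Topology Complex
open scoped ContDiff ENNReal

namespace Pool.Agent.T9h62.S6

open Pool.Agent.W745.RW Pool.Agent.TH294.RS

noncomputable section

/-- smooth sequences dominated by the `m`-th power of a sequence locally bounded in `L^N` -/
structure HB (B : Set ℂ) (N m : ℕ) (f : ℕ → ℂ → ℂ) : Prop where
  sm : ∀ n, ContDiffOn ℝ ∞ (f n) B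
  dom : ∃ G : ℕ → ℂ → ℝ, (∀ n, ContinuousOn (G n) B) ∧ (∀ n z, 0 ≤ G n z) ∧
    (∀ K : Set ℂ, IsCompact K → K ⊆ B → ∃ C : ℝ, ∀ᶠ n in atTop, ∫ z in K, G n z ^ N ≤ C) ∧
    ∀ n, ∀ z ∈ B, ‖f n z‖ ≤ G n z ^ m

variable {B : Set ℂ} {N m m' : ℕ} {f g : ℕ → ℂ → ℂ}

lemma hb_const (c : ℂ) (hc : ‖c‖ ≤ 1) : HB B N 0 (fun _ _ => c) :=
  ⟨fun _ => contDiffOn_const, fun _ _ => 0, fun _ => continuousOn_const, fun _ _ => le_rfl,
    fun _ _ _ => ⟨_, Eventually.of_forall fun _ => le_rfl⟩, fun _ _ _ => by simpa using hc⟩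

lemma LB.hb (H : LB B N f) : HB B N 1 f :=
  ⟨H.sm, fun n z => ‖f n z‖, fun n => (H.co n).norm, fun _ _ => norm_nonneg _, H.bd,
    fun n z _ => by rw [pow_one]⟩

lemma dom_add {G1 G2 : ℕ → ℂ → ℝ} (c1 : ∀ n, ContinuousOn (G1 n) B)
    (c2 : ∀ n, ContinuousOn (G2 n) B) (p1 : ∀ n z, 0 ≤ G1 n z) (p2 : ∀ n z, 0 ≤ G2 n z)
    (b1 : ∀ K : Set ℂ, IsCompact K → K ⊆ B → ∃ C : ℝ, ∀ᶠ n in atTop, ∫ z in K, G1 n z ^ N ≤ C)
    (b2 : ∀ K : Set ℂ, IsCompact K → K ⊆ B → ∃ C : ℝ, ∀ᶠ n in atTop, ∫ z in K, G2 n z ^ N ≤ C) :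
    ∀ K : Set ℂ, IsCompact K → K ⊆ B → ∃ C : ℝ, ∀ᶠ n in atTop,
      ∫ z in K, (G1 n z + G2 n z) ^ N ≤ C := by
  intro K hK hKB
  obtain ⟨C, hC⟩ := b1 K hK hKB
  obtain ⟨D, hD⟩ := b2 K hK hKB
  refine ⟨2 ^ (N - 1) * (C + D), ?_⟩
  filter_upwards [hC, hD] with n h1 h2
  exact intK_lin hK (by positivity) (((c1 n).add (c2 n)).pow N |>.mono hKB)
    (((c1 n).pow N).mono hKB) (((c2 n).pow N).mono hKB)
    (fun z _ => add_pow_le (p1 n z) (p2 n z) N) h1 h2

lemma HB.mul (H1 : HB B N m f) (H2 : HB B N m' g) : HB B N (m + m') (fun n z => f n z * g n z) := by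
  obtain ⟨s1, G1, c1, p1, b1, d1⟩ := H1
  obtain ⟨s2, G2, c2, p2, b2, d2⟩ := H2
  refine ⟨fun n => (s1 n).mul (s2 n), fun n z => G1 n z + G2 n z, fun n => (c1 n).add (c2 n),
    fun n z => add_nonneg (p1 n z) (p2 n z), dom_add c1 c2 p1 p2 b1 b2, fun n z hz => ?_⟩
  rw [norm_mul, pow_add]
  have q1 := p1 n z
  have q2 := p2 n z
  refine mul_le_mul ((d1 n z hz).trans ?_) ((d2 n z hz).trans ?_) (norm_nonneg _) (by positivity)
  · exact pow_le_pow_left₀ q1 (by linarith) m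
  · exact pow_le_pow_left₀ q2 (by linarith) m'

lemma HB.add (hm : m ≠ 0) (H1 : HB B N m f) (H2 : HB B N m g) :
    HB B N m (fun n z => f n z + g n z) := by
  obtain ⟨s1, G1, c1, p1, b1, d1⟩ := H1
  obtain ⟨s2, G2, c2, p2, b2, d2⟩ := H2
  refine ⟨fun n => (s1 n).add (s2 n), fun n z => G1 n z + G2 n z, fun n => (c1 n).add (c2 n),
    fun n z => add_nonneg (p1 n z) (p2 n z), dom_add c1 c2 p1 p2 b1 b2, fun n z hz => ?_⟩
  refine (norm_add_le _ _).trans ((add_le_add (d1 n z hz) (d2 n z hz)).trans ?_)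
  exact pow_add_pow_le (p1 n z) (p2 n z) hm

lemma HB.lb (H : HB B N N f) : LB B 1 f := by
  obtain ⟨s1, G1, c1, p1, b1, d1⟩ := H
  refine ⟨s1, fun K hK hKB => ?_⟩
  obtain ⟨C, hC⟩ := b1 K hK hKB
  refine ⟨C, hC.mono fun n hn => ?_⟩
  refine (intK_mono hK ((((s1 n).continuousOn).norm.pow 1).mono hKB) (((c1 n).pow N).mono hKB)
    (fun z hz => ?_)).trans hn
  rw [pow_one]
  exact d1 n z (hKB hz)

/-- monomials -/
def mm (x : ℤ → ℂ) : List ℤ → ℂ
  | [] => 1
  | i :: b => x i * mm x b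

/-- the raising derivation on monomials -/
def Dpl (x : ℤ → ℂ) : List ℤ → ℂ
  | [] => 0
  | i :: b => x (i + 1) * mm x b + x i * Dpl x b

/-- the lowering derivation on monomials -/
def Dml (x : ℤ → ℂ) : List ℤ → ℂ
  | [] => 0
  | i :: b => x (i - 1) * mm x b + x i * Dml x b

variable {h : ℕ → ℝ} {a : ℂ → ℝ} {q : ℕ} {w : ℤ → ℕ → ℂ → ℂ}

lemma AQ.mm (H : AQ B a h q w) (b : List ℤ) :
    HB B (2 * (q + 1)) b.length (fun n z => mm (fun k => w k n z) b) := by
  induction b with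
  | nil => exact hb_const 1 (by simp)
  | cons i b ih =>
    have := (LB.hb (H.bd i)).mul ih
    rw [add_comm 1 b.length] at this
    exact this

lemma AQ.dpmm (H : AQ B a h q w) (hB : IsOpen B) (b : List ℤ) :
    ∃ E, HB B (2 * (q + 1)) b.length E ∧ ∀ n, ∀ z ∈ B,
      DP a (h n) (fun z => S6.mm (fun k => w k n z) b) z =
        Dpl (fun k => w k n z) b + (h n : ℂ) * E n z := by
  induction b with
  | nil =>
    refine ⟨_, hb_const 0 (by simp), fun n z hz => ?_⟩
    simp [S6.mm, Dpl, DP, dd, dx, dy]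
  | cons i b ih =>
    obtain ⟨E, hE, hE'⟩ := ih
    obtain ⟨e, he, he'⟩ := H.up i
    refine ⟨fun n z => e n z * S6.mm (fun k => w k n z) b + w i n z * E n z, ?_,
      fun n z hz => ?_⟩
    · refine HB.add (by simp) ?_ ?_
      · have := (LB.hb he).mul (H.mm b)
        rw [add_comm 1 b.length] at this
        exact this
      · have := (LB.hb (H.bd i)).mul hE
        rw [add_comm 1 b.length] at this
        exact this
    · have d1 := da hB ((H.bd i).sm n) hz
      have d2 := da hB ((H.mm b).sm n) hz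
      have e1 := he' n z hz
      have e2 := hE' n z hz
      have e3 : (fun z => S6.mm (fun k => w k n z) (i :: b)) =
        fun z => w i n z * S6.mm (fun k => w k n z) b := rfl
      rw [e3]
      simp only [DP] at e1 e2 ⊢
      rw [dd_mul d1 d2]
      simp only [Dpl]
      linear_combination (S6.mm (fun k => w k n z) b) * e1 + (w i n z) * e2

lemma AQ.dmmm (H : AQ B a h q w) (hB : IsOpen B) (b : List ℤ) :
    ∃ E, HB B (2 * (q + 1)) b.length E ∧ ∀ n, ∀ z ∈ B,
      DM a (h n) (fun z => S6.mm (fun k => w k n z) b) z =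
        - Dml (fun k => w k n z) b + (h n : ℂ) * E n z := by
  induction b with
  | nil =>
    refine ⟨_, hb_const 0 (by simp), fun n z hz => ?_⟩
    simp [S6.mm, Dml, DM, db, dx, dy]
  | cons i b ih =>
    obtain ⟨E, hE, hE'⟩ := ih
    obtain ⟨e, he, he'⟩ := H.dn i
    refine ⟨fun n z => e n z * S6.mm (fun k => w k n z) b + w i n z * E n z, ?_,
      fun n z hz => ?_⟩
    · refine HB.add (by simp) ?_ ?_
      · have := (LB.hb he).mul (H.mm b)
        rw [add_comm 1 b.length] at this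
        exact this
      · have := (LB.hb (H.bd i)).mul hE
        rw [add_comm 1 b.length] at this
        exact this
    · have d1 := da hB ((H.bd i).sm n) hz
      have d2 := da hB ((H.mm b).sm n) hz
      have e1 := he' n z hz
      have e2 := hE' n z hz
      have e3 : (fun z => S6.mm (fun k => w k n z) (i :: b)) =
        fun z => w i n z * S6.mm (fun k => w k n z) b := rfl
      rw [e3]
      simp only [DM] at e1 e2 ⊢
      rw [db_mul d1 d2]
      simp only [Dml]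
      linear_combination (S6.mm (fun k => w k n z) b) * e1 + (w i n z) * e2

/-- raising relations -/
lemma AQ.relP (H : AQ B a h q w) (hB : IsOpen B) {b : List ℤ} (hb : b.length = 2 * (q + 1)) :
    WN B (fun n z => Dpl (fun k => w k n z) b) := by
  obtain ⟨E, hE, hE'⟩ := H.dpmm hB b
  have h0 := H.mm b
  rw [hb] at hE h0
  refine ((h0.lb.wnP hB H.hlim H.sa).sub (hE.lb.wn H.hlim)).congr fun n z hz => ?_
  rw [hE' n z hz]; ring

/-- lowering relations -/
lemma AQ.relM (H : AQ B a h q w) (hB : IsOpen B) {b : List ℤ} (hb : b.length = 2 * (q + 1)) :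
    WN B (fun n z => Dml (fun k => w k n z) b) := by
  obtain ⟨E, hE, hE'⟩ := H.dmmm hB b
  have h0 := H.mm b
  rw [hb] at hE h0
  refine ((hE.lb.wn H.hlim).sub (h0.lb.wnM hB H.hlim H.sa)).congr fun n z hz => ?_
  rw [hE' n z hz]; ring

lemma wn_zero : WN B (fun _ _ => (0 : ℂ)) :=
  ⟨fun _ => continuousOn_const, fun φ _ => by simp [Null]⟩

/-- combinations of relations -/
def rl (x : ℤ → ℂ) : List (ℤ × List ℤ) → ℂ
  | [] => 0
  | t :: L => (t.1 : ℂ) * (Dpl x t.2 + Dml x (t.2.map Neg.neg)) + rl x L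

lemma AQ.rl (H : AQ B a h q w) (hB : IsOpen B) (L : List (ℤ × List ℤ))
    (hL : ∀ t ∈ L, t.2.length = 2 * (q + 1)) : WN B (fun n z => rl (fun k => w k n z) L) := by
  induction L with
  | nil => exact wn_zero
  | cons t L ih =>
    have h1 := H.relP hB (hL t (by simp))
    have h2 := H.relM hB (b := t.2.map Neg.neg) (by rw [List.length_map]; exact hL t (by simp))
    exact ((h1.add h2).cmul (t.1 : ℂ)).add (ih fun s hs => hL s (by simp [hs]))

/-- quartic forms -/
def e4 (x : ℤ → ℂ) : List (ℤ × ℤ × ℤ × ℤ × ℤ) → ℂ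
  | [] => 0
  | t :: L => (t.1 : ℂ) * (x t.2.1 * x t.2.2.1 * x t.2.2.2.1 * x t.2.2.2.2) + e4 x L

/-- the coefficient of the fourth moment -/
def A4 : List (ℤ × ℤ × ℤ × ℤ × ℤ) → ℂ
  | [] => 0
  | t :: L => (t.1 : ℂ) * eps t.2.1 t.2.2.1 t.2.2.2.1 t.2.2.2.2 + A4 L

/-- the constant coefficient -/
def B4 : List (ℤ × ℤ × ℤ × ℤ × ℤ) → ℂ
  | [] => 0
  | t :: L => (t.1 : ℂ) * (GG t.2.1 t.2.2.1 t.2.2.2.1 t.2.2.2.2 -
      3 * eps t.2.1 t.2.2.1 t.2.2.2.1 t.2.2.2.2) + B4 L

/-- the weak form of the formula for fourth order moments -/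
lemma AS.wn4 (H : AS B a h w) (hB : IsOpen B) (i j k l : ℤ) (hs : i + j + k + l = 0) :
    WN B (fun n z => w i n z * w j n z * w k n z * w l n z - (eps i j k l * w 0 n z ^ 4 +
      (GG i j k l - 3 * eps i j k l))) := by
  have hc : ∀ i j k l n, ContinuousOn (F4 w i j k l n) B := fun i j k l n =>
    ((((H.bd i).co n).mul ((H.bd j).co n)).mul ((H.bd k).co n)).mul ((H.bd l).co n)
  have h0 : ∀ n, ContinuousOn (fun z => F4 w 0 0 0 0 n z) B := fun n => hc 0 0 0 0 n
  have key : WN B (fun n z => F4 w i j k l n z - (eps i j k l * F4 w 0 0 0 0 n z +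
      (GG i j k l - 3 * eps i j k l))) := by
    refine ⟨fun n => (hc i j k l n).sub ((continuousOn_const.mul (h0 n)).add continuousOn_const),
      fun φ hφ => ?_⟩
    have h1 := H.mom4 hB hφ i j k l hs
    have h2 := h1.sub_const ((GG i j k l - 3 * eps i j k l) * ((∫ z, φ z : ℝ) : ℂ))
    rw [sub_self] at h2
    refine h2.congr fun n => ?_
    have i1 := TF.cint hφ (hc i j k l n)
    have i2 := TF.cint hφ (h0 n)
    have IJ : Integrable (fun z => (φ z : ℂ)) :=
      (hφ.1.continuous.integrable_of_hasCompactSupport hφ.2.1).ofReal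
    have e1 : ∫ z, (φ z : ℂ) * (F4 w i j k l n z - (eps i j k l * F4 w 0 0 0 0 n z +
        (GG i j k l - 3 * eps i j k l))) = ∫ z, (((φ z : ℂ) * F4 w i j k l n z -
        eps i j k l * ((φ z : ℂ) * F4 w 0 0 0 0 n z)) -
        (GG i j k l - 3 * eps i j k l) * (φ z : ℂ)) := by
      congr 1; funext z; ring
    have i3 : Integrable (fun z => (φ z : ℂ) * F4 w i j k l n z -
        eps i j k l * ((φ z : ℂ) * F4 w 0 0 0 0 n z)) := i1.sub (i2.const_mul _)
    rw [e1, integral_sub i3 (IJ.const_mul _),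
      integral_sub i1 (i2.const_mul _), integral_const_mul, integral_const_mul,
      integral_complex_ofReal]
  exact key.congr fun n z _ => by simp only [F4]; ring

lemma AS.e4 (H : AS B a h w) (hB : IsOpen B) (L : List (ℤ × ℤ × ℤ × ℤ × ℤ))
    (hL : ∀ t ∈ L, t.2.1 + t.2.2.1 + t.2.2.2.1 + t.2.2.2.2 = 0) :
    WN B (fun n z => e4 (fun k => w k n z) L - (A4 L * w 0 n z ^ 4 + B4 L)) := by
  induction L with
  | nil => exact wn_zero.congr fun n z _ => by simp [S6.e4, A4, B4]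
  | cons t L ih =>
    have h1 := (AS.wn4 H hB _ _ _ _ (hL t (by simp))).cmul (t.1 : ℂ)
    refine (h1.add (ih fun s hs => hL s (by simp [hs]))).congr fun n z _ => ?_
    simp only [S6.e4, A4, B4]; ring

/-- quadratic forms -/
def e2 (x : ℤ → ℂ) : List (ℤ × ℤ) → ℂ
  | [] => 0
  | t :: L => (t.1 : ℂ) * (x t.2 * x (- t.2)) + e2 x L

/-- their limits -/
def B2 : List (ℤ × ℤ) → ℂ
  | [] => 0
  | t :: L => (t.1 : ℂ) * (-1) ^ t.2.natAbs + B2 L

lemma AS.e2 (H : AS B a h w) (hB : IsOpen B) (L : List (ℤ × ℤ)) :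
    WN B (fun n z => e2 (fun k => w k n z) L - B2 L) := by
  induction L with
  | nil => exact wn_zero.congr fun n z _ => by simp [S6.e2, B2]
  | cons t L ih =>
    have h1 := (H.two hB t.2 (- t.2)).cmul (t.1 : ℂ)
    refine (h1.add ih).congr fun n z _ => ?_
    have : CC t.2 (- t.2) = (-1) ^ t.2.natAbs := by unfold CC; rw [if_pos (by ring)]
    rw [this]
    simp only [S6.e2, B2]; ring

/-- linear combinations of monomials -/
def ev (x : ℤ → ℂ) : List (ℤ × List ℤ) → ℂ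
  | [] => 0
  | t :: L => (t.1 : ℂ) * mm x t.2 + ev x L

/-- parity sign -/
def sg (b : List ℤ) : ℤ := if b.sum % 2 = 0 then 1 else -1

/-- the conjugate combination -/
def cjl (L : List (ℤ × List ℤ)) : List (ℤ × List ℤ) :=
  L.map fun t => (sg t.2 * t.1, t.2.map Neg.neg)

lemma sg_cons (i : ℤ) (b : List ℤ) : ((sg (i :: b) : ℤ) : ℂ) = (-1) ^ i.natAbs * (sg b : ℂ) := by
  unfold sg
  rw [List.sum_cons]
  rcases Int.even_or_odd i with hi | hi
  · have h1 : Even i.natAbs := Int.natAbs_even.2 hi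
    have h2 : i % 2 = 0 := Int.even_iff.1 hi
    have h3 : (i + b.sum) % 2 = b.sum % 2 := by omega
    rw [h1.neg_one_pow, h3, one_mul]
  · have h1 : Odd i.natAbs := Int.natAbs_odd.2 hi
    have h2 : i % 2 = 1 := Int.odd_iff.1 hi
    rw [h1.neg_one_pow]
    by_cases hb : b.sum % 2 = 0
    · have h3 : ¬ (i + b.sum) % 2 = 0 := by omega
      rw [if_neg h3, if_pos hb]; simp
    · have h3 : (i + b.sum) % 2 = 0 := by omega
      rw [if_pos h3, if_neg hb]; simp

lemma conj_mm {x : ℤ → ℂ} (hx : ∀ k, (starRingEnd ℂ) (x k) = (-1) ^ k.natAbs * x (-k))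
    (b : List ℤ) : (starRingEnd ℂ) (mm x b) = (sg b : ℂ) * mm x (b.map Neg.neg) := by
  induction b with
  | nil => simp [S6.mm, sg]
  | cons i b ih =>
    simp only [S6.mm, List.map_cons]
    rw [map_mul, hx, ih, sg_cons]; ring

lemma conj_ev {x : ℤ → ℂ} (hx : ∀ k, (starRingEnd ℂ) (x k) = (-1) ^ k.natAbs * x (-k))
    (L : List (ℤ × List ℤ)) : (starRingEnd ℂ) (ev x L) = ev x (cjl L) := by
  induction L with
  | nil => simp [S6.ev, cjl]
  | cons t L ih =>
    simp only [S6.ev, cjl, List.map_cons]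
    rw [map_add, map_mul, ih, conj_mm hx, map_intCast]
    simp only [cjl]
    push_cast; ring

/-- sums of squares -/
def sos (x : ℤ → ℂ) : List (ℕ × List (ℤ × List ℤ)) → ℂ
  | [] => 0
  | t :: L => (t.1 : ℂ) * (ev x t.2 * ev x (cjl t.2)) + sos x L

lemma sos_re {x : ℤ → ℂ} (hx : ∀ k, (starRingEnd ℂ) (x k) = (-1) ^ k.natAbs * x (-k))
    (L : List (ℕ × List (ℤ × List ℤ))) : 0 ≤ (sos x L).re := by
  induction L with
  | nil => simp [S6.sos]
  | cons t L ih =>
    simp only [S6.sos]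
    rw [← conj_ev hx, Complex.mul_conj, add_re]
    have : ((t.1 : ℂ) * ((normSq (ev x t.2) : ℝ) : ℂ)).re = t.1 * normSq (ev x t.2) := by
      rw [← ofReal_natCast, ← ofReal_mul, ofReal_re]
    rw [this]
    have := normSq_nonneg (ev x t.2)
    positivity

end

end Pool.Agent.T9h62.S6
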