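import Pool.Agent.TH294.RS.Ell
import Pool.Agent.W404.RW.L

/-! Sobolev inequality in the plane for even exponents. -/
set_option autoImplicit false
open MeasureTheory Filter Topology Complex
open scoped ContDiff ENNReal

namespace Pool.Agent.T9h62.S6

open Pool.Agent.W745.RW Pool.Agent.W249.RW Pool.Agent.TH294.RS

noncomputable section

/-- one step of the Sobolev inequality -/
lemma sob_step (q : ℕ) (hq : 1 ≤ q) : ∃ C : ℝ, 0 ≤ C ∧ ∀ f : ℂ → ℝ, ContDiff ℝ 1 f →
    HasCompactSupport f → ∫ z, f z ^ (2 * (q + 1)) ≤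
      C * (∫ z, f z ^ (2 * q)) * ∫ z, (dx f z ^ 2 + dy f z ^ 2) := by
  set K : ℝ := (lintegralPowLePowLIntegralFDerivConst (volume : Measure ℂ) 2 : ℝ) with hK
  have hK0 : 0 ≤ K := by rw [hK]; positivity
  refine ⟨K * (q + 1) ^ 2 * 2, by positivity, fun f hf hc => ?_⟩
  have hfc : Continuous f := hf.continuous
  have hDc : Continuous (fderiv ℝ f) := hf.continuous_fderiv (by norm_num)
  have hgC : ContDiff ℝ 1 (fun z => f z ^ (q + 1)) := hf.pow (q + 1)
  have hgc : HasCompactSupport (fun z => f z ^ (q + 1)) :=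
    hc.comp_left (g := fun x : ℝ => x ^ (q + 1)) (by simp)
  have h1 := Pool.Agent.W404.RW.L.gn _ hgC hgc
  have hDg : ∀ z, ‖fderiv ℝ (fun z => f z ^ (q + 1)) z‖ =
      (q + 1) * (|f z| ^ q * ‖fderiv ℝ f z‖) := by
    intro z
    have hd : DifferentiableAt ℝ f z := (hf.differentiable (by norm_num)) z
    have := (hd.hasFDerivAt.pow (q + 1)).fderiv
    rw [this, norm_smul]
    simp only [Nat.add_sub_cancel, nsmul_eq_mul, norm_mul, norm_pow, Real.norm_eq_abs]
    push_cast
    rw [abs_of_nonneg (by positivity : (0:ℝ) ≤ (q : ℝ) + 1)]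
    ring
  have cA : HasCompactSupport (fun z => f z ^ (2 * q)) :=
    hc.comp_left (g := fun x : ℝ => x ^ (2 * q)) (by simp; omega)
  have iA : Integrable (fun z => f z ^ (2 * q)) := (hfc.pow (2 * q)).integrable_of_hasCompactSupport cA
  have cabs : HasCompactSupport (fun z => |f z| ^ q) :=
    hc.comp_left (g := fun x : ℝ => |x| ^ q) (by simp; omega)
  have cM : HasCompactSupport (fun z => |f z| ^ q * ‖fderiv ℝ f z‖) := cabs.mul_right
  have iM : Integrable (fun z => |f z| ^ q * ‖fderiv ℝ f z‖) :=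
    Continuous.integrable_of_hasCompactSupport ((hfc.abs.pow q).mul hDc.norm) cM
  have cD : HasCompactSupport (fderiv ℝ f) := hc.fderiv ℝ
  have cB : HasCompactSupport (fun z => ‖fderiv ℝ f z‖ ^ 2) :=
    cD.comp_left (g := fun x : ℂ →L[ℝ] ℝ => ‖x‖ ^ 2) (by simp)
  have iB : Integrable (fun z => ‖fderiv ℝ f z‖ ^ 2) :=
    Continuous.integrable_of_hasCompactSupport (hDc.norm.pow 2) cB
  have hdxc : Continuous (dx f) := by
    unfold dx; exact hDc.clm_apply continuous_const
  have hdyc : Continuous (dy f) := by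
    unfold dy; exact hDc.clm_apply continuous_const
  have cE : HasCompactSupport (fun z => 2 * (dx f z ^ 2 + dy f z ^ 2)) :=
    cD.comp_left (g := fun x : ℂ →L[ℝ] ℝ => 2 * ((x 1) ^ 2 + (x I) ^ 2)) (by simp)
  have iD : Integrable (fun z => 2 * (dx f z ^ 2 + dy f z ^ 2)) :=
    Continuous.integrable_of_hasCompactSupport
      (continuous_const.mul ((hdxc.pow 2).add (hdyc.pow 2))) cE
  set A := ∫ z, f z ^ (2 * q) with hA
  set M := ∫ z, |f z| ^ q * ‖fderiv ℝ f z‖ with hM
  set B := ∫ z, ‖fderiv ℝ f z‖ ^ 2 with hB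
  have hB2 : B ≤ 2 * ∫ z, (dx f z ^ 2 + dy f z ^ 2) := by
    rw [← integral_const_mul]
    exact integral_mono iB iD fun z => Pool.Agent.W404.RW.L.norm_fderiv_sq f z
  have hA0 : 0 ≤ A := integral_nonneg fun z => by simp only [Pi.zero_apply]; rw [pow_mul]; positivity
  have hcs : M ^ 2 ≤ A * B := by
    have hq : ∀ t : ℝ, 0 ≤ A * (t * t) + (-2 * M) * t + B := by
      intro t
      have : A * (t * t) + (-2 * M) * t + B = ∫ z, (t * |f z| ^ q - ‖fderiv ℝ f z‖) ^ 2 := by
        have e : ∀ z, (t * |f z| ^ q - ‖fderiv ℝ f z‖) ^ 2 =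
            (t * t) * f z ^ (2 * q) + (-2 * t) * (|f z| ^ q * ‖fderiv ℝ f z‖) +
              ‖fderiv ℝ f z‖ ^ 2 := by
          intro z
          have : (|f z| ^ q) ^ 2 = f z ^ (2 * q) := by
            rw [← pow_mul, mul_comm q 2, pow_mul, sq_abs, ← pow_mul]
          linear_combination (t * t) * this
        simp_rw [e]
        have j1 : Integrable (fun z => (t * t) * f z ^ (2 * q)) := iA.const_mul _
        have j2 : Integrable (fun z => (-2 * t) * (|f z| ^ q * ‖fderiv ℝ f z‖)) := iM.const_mul _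
        have j3 : Integrable (fun z => (t * t) * f z ^ (2 * q) +
            (-2 * t) * (|f z| ^ q * ‖fderiv ℝ f z‖)) := j1.add j2
        rw [integral_add j3 iB, integral_add j1 j2, integral_const_mul, integral_const_mul]
        ring
      rw [this]
      exact integral_nonneg fun z => sq_nonneg _
    have := discrim_le_zero hq
    unfold discrim at this
    nlinarith
  have h4 : ∫ z, f z ^ (2 * (q + 1)) = ∫ z, (f z ^ (q + 1)) ^ 2 := by
    congr 1; ext z; ring
  have h5 : ∫ z, ‖fderiv ℝ (fun z => f z ^ (q + 1)) z‖ = (q + 1) * M := by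
    simp_rw [hDg]
    rw [integral_const_mul]
  rw [h4]
  rw [h5] at h1
  calc ∫ z, (f z ^ (q + 1)) ^ 2 ≤ K * ((q + 1) * M) ^ 2 := h1
    _ = K * (q + 1) ^ 2 * M ^ 2 := by ring
    _ ≤ K * (q + 1) ^ 2 * (A * B) := by gcongr
    _ ≤ K * (q + 1) ^ 2 * (A * (2 * ∫ z, (dx f z ^ 2 + dy f z ^ 2))) := by gcongr
    _ = _ := by ring

/-- Sobolev inequality for even exponents -/
lemma sob (q : ℕ) : ∃ C : ℝ, 0 ≤ C ∧ ∀ f : ℂ → ℝ, ContDiff ℝ 1 f →
    HasCompactSupport f → ∫ z, f z ^ (2 * (q + 1)) ≤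
      C * (∫ z, f z ^ 2) * (∫ z, (dx f z ^ 2 + dy f z ^ 2)) ^ q := by
  induction q with
  | zero => exact ⟨1, zero_le_one, fun f _ _ => by simp⟩
  | succ q ih =>
    obtain ⟨C, hC0, hC⟩ := ih
    obtain ⟨D, hD0, hD⟩ := sob_step (q + 1) (by omega)
    refine ⟨D * C, by positivity, fun f hf hc => ?_⟩
    have hG : 0 ≤ ∫ z, (dx f z ^ 2 + dy f z ^ 2) := integral_nonneg fun z => by
      simp only [Pi.zero_apply]; positivity
    refine (hD f hf hc).trans ?_
    calc D * (∫ z, f z ^ (2 * (q + 1))) * ∫ z, (dx f z ^ 2 + dy f z ^ 2) ≤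
        D * (C * (∫ z, f z ^ 2) * (∫ z, (dx f z ^ 2 + dy f z ^ 2)) ^ q) *
          ∫ z, (dx f z ^ 2 + dy f z ^ 2) := by
          have := hC f hf hc
          gcongr
      _ = _ := by ring

/-- powers of integrals over sets of finite measure -/
lemma jensen {S : Set ℂ} (hS : volume S ≠ ⊤) {g : ℂ → ℝ} (hg : ∀ z, 0 ≤ g z) (q : ℕ)
    (hi : IntegrableOn g S) (hiq : IntegrableOn (fun z => g z ^ (q + 1)) S) :
    (∫ z in S, g z) ^ (q + 1) ≤ volume.real S ^ q * ∫ z in S, g z ^ (q + 1) := by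
  by_cases h0 : volume S = 0
  · have h1 : volume.restrict S = 0 := Measure.restrict_eq_zero.2 h0
    rw [h1]; simp
  have h2 : 0 < volume.real S := by
    rw [measureReal_def]; exact ENNReal.toReal_pos h0 hS
  have h3 : (⨍ z in S, g z) ^ (q + 1) ≤ ⨍ z in S, g z ^ (q + 1) := by
    have := (convexOn_pow (q + 1)).map_set_average_le (t := S) (f := g) (μ := volume)
      (continuous_pow (q + 1)).continuousOn isClosed_Ici h0 hS
      (Eventually.of_forall fun z => hg z) hi hiq
    exact this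
  rw [setAverage_eq, setAverage_eq, smul_eq_mul, smul_eq_mul, mul_pow] at h3
  set V := volume.real S
  have h4 := mul_le_mul_of_nonneg_left h3 (pow_nonneg h2.le (q + 1))
  have e1 : V ^ (q + 1) * (V⁻¹ ^ (q + 1) * (∫ z in S, g z) ^ (q + 1)) =
      (∫ z in S, g z) ^ (q + 1) := by
    rw [← mul_assoc, ← mul_pow, mul_inv_cancel₀ h2.ne', one_pow, one_mul]
  have e2 : V ^ (q + 1) * (V⁻¹ * ∫ z in S, g z ^ (q + 1)) =
      V ^ q * ∫ z in S, g z ^ (q + 1) := by
    rw [pow_succ]; field_simp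
  rw [e1, e2] at h4
  exact h4

end

end Pool.Agent.T9h62.S6
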